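import Pool.Agent.Work.MP_274aea_ag_D16.D0

set_option autoImplicit false

open MvPolynomial Matrix Pool.Agent.GM16 Pool.Agent.GM34 Pool.Agent.GMDiv Filter Topology

namespace Pool.Agent.GMD16

theorem a1_pol {ι : Type} (v : ι → ℂ) (p : PR ι) : Pol fun x => (aeval (dn x v) p).snd := by
  induction p using MvPolynomial.induction_on with
  | C a => exact ⟨0, fun x => by simp [TrivSqZeroExt.algebraMap_eq_inl]⟩
  | add p q hp hq =>
    simp only [map_add, TrivSqZeroExt.snd_add]
    exact hp.add hq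
  | mul_X p i hp =>
    simp only [ift_step]
    exact (Pol.mul ⟨p, fun _ => rfl⟩ (pol_C _)).add ((pol_X i).mul hp)

theorem rank_open {ι κ : Type} [Fintype ι] [Fintype κ] {E : κ → PR ι} {T : Set ι} {x0 : ι → ℂ}
    (h : Surj E T x0) : ∃ D : PR ι, eval x0 D ≠ 0 ∧ ∀ x, eval x D ≠ 0 → Surj E T x := by
  classical
  choose v hv0 hv using fun k => h (Pi.single k 1)
  choose P hP using fun k k' => a1_pol (v k) (E k')
  let A : (ι → ℂ) → Matrix κ κ ℂ := fun x => Matrix.of fun k k' => (aeval (dn x (v k)) (E k')).snd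
  have hA : ∀ x, eval x (Matrix.of P).det = (A x).det := fun x => by
    rw [RingHom.map_det]
    refine congrArg Matrix.det ?_
    ext k k'
    exact (hP k k' x).symm
  refine ⟨(Matrix.of P).det, ?_, fun x hx r => ?_⟩
  · have : A x0 = 1 := by
      ext k k'
      simp only [A, Matrix.of_apply, hv, Matrix.one_apply, Pi.single_apply, eq_comm]
    rw [hA, this, Matrix.det_one]
    exact one_ne_zero
  · rw [hA] at hx
    choose L _ hL' using fun k => ift_deriv x (E k)
    let c : κ → ℂ := r ᵥ* (A x)⁻¹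
    have hc : c ᵥ* A x = r := by
      simp only [c]
      rw [Matrix.vecMul_vecMul, Matrix.nonsing_inv_mul _ (isUnit_iff_ne_zero.2 hx),
        Matrix.vecMul_one]
    refine ⟨∑ k, c k • v k, fun i hi => ?_, fun k' => ?_⟩
    · simp [Finset.sum_apply, hv0 _ _ hi]
    · have h1 := congrFun hc k'
      simp only [Matrix.vecMul, dotProduct, A, Matrix.of_apply, ← hL'] at h1
      rw [← hL']
      simp only [map_sum, map_smul, smul_eq_mul]
      exact h1

theorem dom {ι κ α : Type} [Fintype ι] [Fintype κ] [Finite α] {E : κ → PR ι} {T : Set ι}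
    {x : ι → ℂ} (h : Surj E T x) {a : α → ι} (ha : Function.Injective a) {c : PR ι}
    (hc : eval x c ≠ 0) (f : PR α) (hf : f ≠ 0) :
    ∃ (y : α → ℂ) (z : ι → ℂ), eval y f ≠ 0 ∧ (∀ k, eval z (E k) = eval x (E k)) ∧
      eval z c ≠ 0 ∧ ∀ s, a s ∈ T → z (a s) = y s := by
  classical
  have h1 := (ift E Tᶜ x fun r => by
    obtain ⟨v, e1, e2⟩ := h r
    exact ⟨v, fun i hi => e1 i (not_not.1 hi), e2⟩).self_of_nhds {z | eval z c ≠ 0}
    ((MvPolynomial.continuous_eval c).continuousAt.eventually_ne hc)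
  have h2 : Continuous fun y : α → ℂ => Function.extend a y x := by
    refine continuous_pi fun i => ?_
    by_cases hi : ∃ s, a s = i
    · obtain ⟨s, rfl⟩ := hi
      simp only [ha.extend_apply]
      exact continuous_apply s
    · simp only [Function.extend_apply' _ _ _ hi]
      exact continuous_const
  have h3 : Function.extend a (x ∘ a) x = x := by
    funext i
    by_cases hi : ∃ s, a s = i
    · obtain ⟨s, rfl⟩ := hi
      rw [ha.extend_apply]
      rfl
    · rw [Function.extend_apply' _ _ _ hi]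
  have h4 := (h2.continuousAt (x := x ∘ a)).preimage_mem_nhds (by rw [h3]; exact h1)
  obtain ⟨y, ⟨z, z1, z2, z3⟩, hy⟩ := dense_ne f hf (x ∘ a) h4
  refine ⟨y, z, hy, z3, z1, fun s hs => ?_⟩
  exact (z2 (a s) (not_not.2 hs)).trans (ha.extend_apply y x s)

theorem tangent {ι κ α β : Type} [Fintype ι] [Fintype κ] [Fintype α] [DecidableEq β]
    {E : κ → PR ι} {a : α → ι} {b : β → ι} (ha : Function.Injective a)
    (hb : Function.Injective b) {s0 s2 : α} (hs : s2 ≠ s0) {x : ι → ℂ}
    (h1 : Surj E {i | ∃ s, s ≠ s0 ∧ i = a s} x) (h2 : Surj E (Set.range b) x) (φ : PR β) (i : β)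
    (h3 : (aeval (dn (x ∘ b) (Pi.single i 1)) φ).snd ≠ 0) :
    ∃ s1, s1 ≠ s0 ∧ Surj (fun k : Option κ => k.elim (rename b φ) E)
      {i | ∃ s, s ≠ s0 ∧ s ≠ s1 ∧ i = a s} x := by
  classical
  choose L _ hL using fun k => ift_deriv x (E k)
  obtain ⟨M, -, hM⟩ := ift_deriv x (rename b φ)
  obtain ⟨v, v1, v2⟩ := h2 fun k => L k (Pi.single (b i) 1)
  choose u u1 u2 using fun s => h1 fun k => L k (Pi.single (a s) 1)
  simp only [← hL] at v2 u2
  set w : ι → ℂ := Pi.single (b i) 1 - v with hw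
  have w1 : ∀ k, L k w = 0 := fun k => by rw [hw, map_sub, v2, sub_self]
  have w2 : M w ≠ 0 := by
    have e : w ∘ b = Pi.single i 1 := by
      funext j
      simp [hw, v1 (b j) ⟨j, rfl⟩, Pi.single_apply, hb.eq_iff]
    rw [hM, aeval_rename, show dn x w ∘ b = dn (x ∘ b) (w ∘ b) from rfl, e]
    exact h3
  let g : α → ι → ℂ := fun s => Pi.single (a s) 1 - u s
  have g1 : ∀ s k, L k (g s) = 0 := fun s k => by
    simp only [g]
    rw [map_sub, u2, sub_self]
  have g2 : ∀ s t, t ≠ s0 → g s (a t) = if t = s then 1 else 0 := fun s t ht => by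
    simp [g, u1 s (a t) ⟨t, ht, rfl⟩, Pi.single_apply, ha.eq_iff]
  obtain ⟨η, s1, e1, e2, e3, e4⟩ : ∃ (η : ι → ℂ) (s1 : α), s1 ≠ s0 ∧ (∀ k, L k η = 0) ∧
      M η ≠ 0 ∧ ∀ t, t ≠ s0 → t ≠ s1 → η (a t) = 0 := by
    by_cases hc : ∃ s, s ≠ s0 ∧ M (g s) ≠ 0
    · obtain ⟨s, c1, c2⟩ := hc
      exact ⟨g s, s, c1, g1 s, c2, fun t t1 t2 => by rw [g2 s t t1, if_neg t2]⟩
    · push Not at hc
      refine ⟨w - ∑ s ∈ Finset.univ.erase s0, w (a s) • g s, s2, hs, fun k => ?_, ?_,
        fun t t1 _ => ?_⟩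
      · simp only [map_sub, map_sum, map_smul, w1, g1, smul_zero, Finset.sum_const_zero, sub_self]
      · rw [map_sub, map_sum, Finset.sum_eq_zero fun s hs' => by
          rw [map_smul, hc s (Finset.ne_of_mem_erase hs'), smul_zero], sub_zero]
        exact w2
      · rw [Pi.sub_apply, Finset.sum_apply, Finset.sum_eq_single t
          (fun s _ st => by rw [Pi.smul_apply, g2 s t t1, if_neg (Ne.symm st), smul_zero])
          (fun ht => absurd (Finset.mem_erase.2 ⟨t1, Finset.mem_univ t⟩) ht),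
          Pi.smul_apply, g2 t t t1, if_pos rfl, smul_eq_mul, mul_one, sub_self]
  refine ⟨s1, e1, fun r => ?_⟩
  obtain ⟨y, y1, y2⟩ := h1 fun k => r (some k)
  simp only [← hL] at y2
  refine ⟨y + ((r none - M y) / M η) • η, ?_, fun k => ?_⟩
  · rintro _ ⟨t, t1, t2, rfl⟩
    rw [Pi.add_apply, Pi.smul_apply, y1 (a t) ⟨t, t1, rfl⟩, e4 t t1 t2, smul_zero, add_zero]
  · cases k with
    | none =>
      refine (hM _).symm.trans ?_
      rw [map_add, map_smul, smul_eq_mul, div_mul_cancel₀ _ e3]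
      ring
    | some k =>
      refine (hL k _).symm.trans ?_
      rw [map_add, map_smul, e2, smul_zero, add_zero, y2]

end Pool.Agent.GMD16
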