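import Pool.Agent.Work.MP_274aea_ag_D16.D0

set_option autoImplicit false

open MvPolynomial Matrix Pool.Agent.GM16 Pool.Agent.GM34 Pool.Agent.GMDiv Filter Topology

namespace Pool.Agent.GMD16

theorem irr_dvd {α : Type} [Finite α] {F p : PR α} (hF : Irreducible F)
    (h : ∀ x, eval x F = 0 → eval x p = 0) : F ∣ p := by
  by_contra hn
  have hp : (Ideal.span {F}).IsPrime := (Ideal.span_singleton_prime hF.ne_zero).2 hF.prime
  obtain ⟨x, h1, h2⟩ := exists_pt (⟨Ideal.span {F}, hp⟩ : PrimeSpectrum (PR α)) (g := p)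
    fun k => hn (Ideal.mem_span_singleton.1 k)
  exact h2 (h x ((mem_pt x F).1 (h1 (Ideal.mem_span_singleton_self F))))

theorem dense_con {α : Type} [Finite α] {G : (α → ℂ) → Prop} (hG : Con G)
    (h : ∀ f : PR α, f ≠ 0 → ∃ y, eval y f ≠ 0 ∧ G y) :
    ∃ f : PR α, f ≠ 0 ∧ ∀ y, eval y f ≠ 0 → G y := by
  obtain ⟨C, h1, h2⟩ := hG
  obtain ⟨g, k1, k2⟩ := con_basic h1 (⟨⊥, Ideal.isPrime_bot⟩ : PrimeSpectrum (PR α))
  have hg : g ≠ 0 := fun e => k1 (by rw [e]; exact Ideal.zero_mem _)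
  have k3 : ∀ y, eval y g ≠ 0 →
      (pt y ∈ C ↔ (⟨⊥, Ideal.isPrime_bot⟩ : PrimeSpectrum (PR α)) ∈ C) := fun y hy =>
    k2 (pt y) (show (⊥ : Ideal (PR α)) ≤ (pt y).asIdeal from bot_le)
      fun k => hy ((mem_pt y g).1 k)
  obtain ⟨y0, a1, a2⟩ := h g hg
  exact ⟨g, hg, fun y hy => (h2 y).2 ((k3 y hy).2 ((k3 y0 a1).1 ((h2 y0).1 a2)))⟩

theorem select {α : Type} {G : (α → ℂ) → Prop} (hne : ∃ t, G t) :
    (∀ f : PR α, f ≠ 0 → ∃ t, G t ∧ eval t f ≠ 0) ∨
      ∃ F e : PR α, Irreducible F ∧ (∃ t, G t ∧ eval t e ≠ 0) ∧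
        ∀ t, G t → eval t e ≠ 0 → eval t F = 0 := by
  rw [or_iff_not_imp_left]
  intro hn
  have hS : ({p : PR α | p ≠ 0 ∧ ∀ t, G t → eval t p = 0} : Set (PR α)).Nonempty := by
    by_contra hS
    refine hn fun f hf => ?_
    by_contra hc
    refine hS ⟨f, hf, fun t ht => ?_⟩
    by_contra h0
    exact hc ⟨t, ht, h0⟩
  obtain ⟨p, ⟨hp0, hp⟩, hmin⟩ := (wellFounded_dvdNotUnit (α := PR α)).has_min _ hS
  have hu : ¬ IsUnit p := fun hu => by
    obtain ⟨t, ht⟩ := hne
    exact (hu.map (eval t)).ne_zero (hp t ht)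
  obtain ⟨F, hF, e, he⟩ := WfDvdMonoid.exists_irreducible_factor hu hp0
  have he0 : e ≠ 0 := fun h0 => hp0 (by rw [he, h0, mul_zero])
  refine ⟨F, e, hF, ?_, fun t ht h0 => ?_⟩
  · by_contra hc
    refine hmin e ⟨he0, fun t ht => ?_⟩ ⟨he0, F, hF.not_isUnit, by rw [he, mul_comm]⟩
    by_contra h0
    exact hc ⟨t, ht, h0⟩
  · have := hp t ht
    rw [he, map_mul] at this
    exact (mul_eq_zero.1 this).resolve_right h0

theorem a2_snd {β : Type} [DecidableEq β] (y : β → ℂ) (i : β) (p : PR β) :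
    (aeval (dn y (Pi.single i 1)) p).snd = eval y (pderiv i p) := by
  induction p using MvPolynomial.induction_on with
  | C a => simp [TrivSqZeroExt.algebraMap_eq_inl]
  | add p q hp hq => rw [map_add, TrivSqZeroExt.snd_add, hp, hq, map_add, map_add]
  | mul_X p j hp =>
    rw [ift_step, hp, pderiv_mul, map_add, map_mul, map_mul, eval_X, pderiv_X]
    by_cases hj : j = i
    · subst hj
      simp only [Pi.single_eq_same, map_one]
      ring
    · simp only [Pi.single_eq_of_ne hj, map_zero]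
      ring

theorem a2_factor {β : Type} (y : β → ℂ) (F : PR β) :
    F ≠ 0 → eval y F = 0 → ∃ F' : PR β, Irreducible F' ∧ F' ∣ F ∧ eval y F' = 0 := by
  induction F using UniqueFactorizationMonoid.induction_on_prime with
  | h₁ => exact fun h => absurd rfl h
  | h₂ x hx => exact fun _ h => absurd h (hx.map (eval y)).ne_zero
  | h₃ a p ha hp ih =>
    intro _ h
    rw [map_mul] at h
    rcases mul_eq_zero.1 h with h | h
    · exact ⟨p, hp.irreducible, dvd_mul_right p a, h⟩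
    · obtain ⟨F', k1, k2, k3⟩ := ih ha h
      exact ⟨F', k1, k2.mul_left p, k3⟩

theorem a2_deg {β : Type} (i : β) (F : PR β) (h : pderiv i F ≠ 0) :
    (pderiv i F).totalDegree < F.totalDegree := by
  classical
  obtain ⟨m, hm, e⟩ := Finset.exists_mem_eq_sup (pderiv i F).support (support_nonempty.2 h)
    fun s => s.sum fun _ e => e
  have h1 : coeff (m + Finsupp.single i 1) F ≠ 0 := fun h0 =>
    (mem_support_iff.1 hm) (by rw [coeff_pderiv, h0, zero_mul])
  have h2 := le_totalDegree (mem_support_iff.2 h1)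
  rw [Finsupp.sum_add_index' (fun _ => rfl) (fun _ _ _ => rfl), Finsupp.sum_single_index rfl] at h2
  rw [totalDegree, e]
  omega

theorem a2_pd {β : Type} (F : PR β) (h : ∀ i, pderiv i F = 0) : F = C (coeff 0 F) := by
  classical
  ext m
  rw [coeff_C]
  split_ifs with hm
  · rw [← hm]
  · obtain ⟨i, hi⟩ : ∃ i, m i ≠ 0 := by
      by_contra hc
      refine hm (Finsupp.ext fun i => ?_)
      by_contra h0
      exact hc ⟨i, fun k => h0 k.symm⟩
    have e : m - Finsupp.single i 1 + Finsupp.single i 1 = m :=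
      tsub_add_cancel_of_le (Finsupp.single_le_iff.2 (Nat.one_le_iff_ne_zero.2 hi))
    have h1 := coeff_pderiv (i := i) F (m - Finsupp.single i 1)
    rw [h i, coeff_zero, e] at h1
    refine (mul_eq_zero.1 h1.symm).resolve_right ?_
    exact Nat.cast_add_one_ne_zero _

theorem smooth_pt {β : Type} [Fintype β] [DecidableEq β] [Nonempty β] (F g : PR β) (y : β → ℂ)
    (h1 : eval y F = 0) (h2 : eval y g ≠ 0) :
    ∃ (F' : PR β) (y' : β → ℂ) (i : β), (∀ x, eval x F' = 0 → eval x F = 0) ∧ eval y' F' = 0 ∧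
      eval y' g ≠ 0 ∧ (aeval (dn y' (Pi.single i 1)) F').snd ≠ 0 := by
  by_cases hF : F = 0
  · obtain ⟨i⟩ := ‹Nonempty β›
    refine ⟨X i - C (y i), y, i, fun x _ => by rw [hF, map_zero], by simp, h2, ?_⟩
    rw [a2_snd]
    simp
  obtain ⟨F', k1, k2, k3⟩ := a2_factor y F hF h1
  obtain ⟨i, hi⟩ : ∃ i, pderiv i F' ≠ 0 := by
    by_contra hc
    have e := a2_pd F' fun i => by
      by_contra h0
      exact hc ⟨i, h0⟩
    rw [e, eval_C] at k3
    exact k1.ne_zero (by rw [e, k3, map_zero])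
  have hd : ¬ F' ∣ g * pderiv i F' := fun hd => by
    rcases k1.prime.dvd_or_dvd hd with hd | hd
    · obtain ⟨c, hc⟩ := hd
      exact h2 (by rw [hc, map_mul, k3, zero_mul])
    · exact absurd (totalDegree_le_of_dvd_of_isDomain hd hi) (not_le.2 (a2_deg i F' hi))
  obtain ⟨y', a1, a2⟩ : ∃ y', eval y' F' = 0 ∧ eval y' (g * pderiv i F') ≠ 0 := by
    by_contra hc
    refine hd (irr_dvd k1 fun x hx => ?_)
    by_contra h0
    exact hc ⟨x, hx, h0⟩
  rw [map_mul] at a2
  refine ⟨F', y', i, fun x hx => ?_, a1, left_ne_zero_of_mul a2, ?_⟩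
  · obtain ⟨c, hc⟩ := k2
    rw [hc, map_mul, hx, zero_mul]
  · rw [a2_snd]
    exact right_ne_zero_of_mul a2

end Pool.Agent.GMD16
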