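import Pool.Agent.Work.MP_274aea_ag_D16.D0

set_option autoImplicit false

open MvPolynomial Matrix Pool.Agent.GM16 Pool.Agent.GM34 Pool.Agent.GMDiv Filter Topology

namespace Pool.Agent.GMD16

theorem a3_cutR {R : Type} [CommRing R] (Q : Ideal (Polynomial R)) (hQ : Q.IsPrime) :
    ∃ F ∈ Q, ∃ d, Polynomial.C d ∉ Q ∧ ∀ ψ : Polynomial R →+* ℂ,
      (∀ r, Polynomial.C r ∈ Q → ψ (Polynomial.C r) = 0) → ψ F = 0 → ψ (Polynomial.C d) ≠ 0 →
        ∀ q ∈ Q, ψ q = 0 := by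
  classical
  obtain ⟨F, hF, d, hd, hm⟩ : ∃ F ∈ Q, ∃ d, Polynomial.C d ∉ Q ∧ ∀ q ∈ Q,
      Polynomial.C q.leadingCoeff ∉ Q → F.natDegree ≤ q.natDegree ∧ F.leadingCoeff = d := by
    by_cases h : ∃ n, ∃ q ∈ Q, Polynomial.C q.leadingCoeff ∉ Q ∧ q.natDegree = n
    · obtain ⟨F, h1, h2, h3⟩ := Nat.find_spec h
      exact ⟨F, h1, _, h2, fun q k1 k2 => ⟨h3 ▸ Nat.find_min' h ⟨q, k1, k2, rfl⟩, rfl⟩⟩
    · refine ⟨0, zero_mem _, 1, ?_, fun q k1 k2 => absurd ⟨_, q, k1, k2, rfl⟩ h⟩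
      rw [Polynomial.C_1]
      exact (Ideal.ne_top_iff_one Q).1 hQ.ne_top
  refine ⟨F, hF, d, hd, fun ψ h1 h2 h3 q hq => ?_⟩
  induction hn : q.natDegree using Nat.strong_induction_on generalizing q with
  | _ n ih =>
    subst hn
    by_cases hl : Polynomial.C q.leadingCoeff ∈ Q
    · have e := Polynomial.eraseLead_add_C_mul_X_pow q
      have m : q.eraseLead ∈ Q := by
        rw [eq_sub_of_add_eq e]
        exact Q.sub_mem hq (Q.mul_mem_right _ hl)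
      have z : ψ q.eraseLead = 0 := by
        rcases Polynomial.eraseLead_natDegree_lt_or_eraseLead_eq_zero q with k | k
        · exact ih _ k _ m rfl
        · rw [k, map_zero]
      rw [← e, map_add, map_mul, z, h1 _ hl, zero_mul, add_zero]
    · obtain ⟨k1, k2⟩ := hm q hq hl
      have k3 : 0 < q.natDegree := Nat.pos_of_ne_zero fun k => hl (by
        rw [Polynomial.leadingCoeff, k, ← Polynomial.eq_C_of_natDegree_eq_zero k]
        exact hq)
      have k4 := ih _ (Polynomial.natDegree_cancelLeads_lt_of_natDegree_le_natDegree k1 k3)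
        (F.cancelLeads q) (Q.sub_mem (Q.mul_mem_left _ hq) (Q.mul_mem_left _ hF)) rfl
      rw [Polynomial.cancelLeads, Nat.sub_eq_zero_of_le k1, pow_zero, mul_one, map_sub, map_mul,
        map_mul _ _ F, h2, mul_zero, sub_zero, k2] at k4
      exact (mul_eq_zero.1 k4).resolve_left h3

theorem a3_equiv {ι : Type} [DecidableEq ι] (s : ι) :
    ∃ e : PR ι ≃ₐ[ℂ] Polynomial (PR {i // i ≠ s}),
      ∀ r, e (GMDiv.sub (fun i : {i // i ≠ s} => (X i.1 : PR ι)) r) = Polynomial.C r := by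
  refine ⟨(renameEquiv ℂ (Equiv.optionSubtypeNe s).symm).trans (optionEquivLeft ℂ _), fun r => ?_⟩
  induction r using MvPolynomial.induction_on with
  | C a => simp [GMDiv.sub]
  | add p q hp hq => rw [map_add, map_add, map_add, hp, hq]
  | mul_X p k hp =>
    rw [map_mul, map_mul, map_mul, hp]
    simp [GMDiv.sub, Equiv.optionSubtypeNe_symm_of_ne k.2, optionEquivLeft_X_some]

theorem a3_inj {ι : Type} [DecidableEq ι] (s : ι) (r : PR {i // i ≠ s})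
    (h : GMDiv.sub (fun i : {i // i ≠ s} => (X i.1 : PR ι)) r = 0) : r = 0 := by
  obtain ⟨e, e1⟩ := a3_equiv s
  have := e1 r
  rwa [h, map_zero, eq_comm, Polynomial.C_eq_zero] at this

theorem a3_eval {ι : Type} (s : ι) (x : ι → ℂ) (r : PR {i // i ≠ s}) :
    eval x (GMDiv.sub (fun i : {i // i ≠ s} => (X i.1 : PR ι)) r) = eval (fun k => x k.1) r := by
  rw [eval_sub']
  simp only [eval_X]

theorem a3_cutP {ι : Type} [DecidableEq ι] (s : ι) (p : PrimeSpectrum (PR ι)) :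
    ∃ F ∈ p.asIdeal, ∃ d ∉ p.asIdeal, ∀ x : ι → ℂ,
      PrimeSpectrum.comap (GMDiv.sub (fun i : {i // i ≠ s} => (X i.1 : PR ι))) p ≤
        pt (fun k => x k.1) → eval x F = 0 → eval x d ≠ 0 → p ≤ pt x := by
  obtain ⟨e, e1⟩ := a3_equiv s
  have := p.isPrime
  have e2 : ∀ r, (e.symm : Polynomial (PR {i // i ≠ s}) →+* PR ι) (Polynomial.C r) =
      GMDiv.sub (fun i : {i // i ≠ s} => (X i.1 : PR ι)) r := fun r => by
    rw [← e1]
    exact e.symm_apply_apply _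
  obtain ⟨F, F1, d, d1, k⟩ := a3_cutR
    (p.asIdeal.comap (e.symm : Polynomial (PR {i // i ≠ s}) →+* PR ι)) inferInstance
  refine ⟨_, Ideal.mem_comap.1 F1, _, fun h => d1 (Ideal.mem_comap.2 h), fun x h1 h2 h3 q hq => ?_⟩
  have k2 := k ((eval x).comp (e.symm : Polynomial (PR {i // i ≠ s}) →+* PR ι)) (fun r hr => by
    rw [Ideal.mem_comap, e2] at hr
    rw [RingHom.comp_apply, e2, a3_eval]
    exact (mem_pt _ r).1 (h1 (Ideal.mem_comap.2 hr))) h2 h3 (e q) (by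
      rw [Ideal.mem_comap]
      exact (e.symm_apply_apply q).symm ▸ hq)
  rw [RingHom.comp_apply] at k2
  exact (mem_pt x q).2 ((e.symm_apply_apply q) ▸ k2)

theorem divisor2 {α : Type} [Finite α] [DecidableEq α] {G : (α → ℂ) → Prop} (hG : Con G)
    {s0 s1 : α} (hs : s1 ≠ s0)
    (h : ∀ f : PR α, f ≠ 0 → ∃ y, eval y f ≠ 0 ∧ ∃ z, G z ∧ ∀ i, i ≠ s0 → i ≠ s1 → z i = y i) :
    ∃ F1 F2 g : PR α, (∃ z, eval z F1 = 0 ∧ eval z F2 = 0 ∧ eval z g ≠ 0) ∧
      ∀ z, eval z F1 = 0 → eval z F2 = 0 → eval z g ≠ 0 → G z := by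
  obtain ⟨C, h1, h2⟩ := hG
  let φ : {i // i ≠ s0} → PR α := fun i => X i.1
  let t : {i // i ≠ s0} := ⟨s1, hs⟩
  let χ : {j // j ≠ t} → PR {i // i ≠ s0} := fun j => X j.1
  have h3 := PrimeSpectrum.isConstructible_comap_image (sub_fp φ) h1
  have h4 := PrimeSpectrum.isConstructible_comap_image (sub_fp χ) h3
  obtain ⟨f, f1, f2⟩ := con_basic h4 ⊥
  have f3 : GMDiv.sub φ (GMDiv.sub χ f) ≠ 0 := fun k => f1 (by
    rw [a3_inj t f (a3_inj s0 _ k)]
    exact zero_mem _)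
  obtain ⟨y, y1, z, z1, z2⟩ := h _ f3
  obtain ⟨p', ⟨p, p1, rfl⟩, p2⟩ := (f2 (PrimeSpectrum.comap (GMDiv.sub χ)
      (PrimeSpectrum.comap (GMDiv.sub φ) (pt z))) bot_le (by
    rw [comap_pt, comap_pt, mem_pt]
    rw [eval_sub', eval_sub'] at y1
    have : (fun k => eval (fun k => eval z (φ k)) (χ k)) =
        fun k => eval (fun k => eval y (φ k)) (χ k) := funext fun k => by
      simp only [φ, χ, eval_X]
      exact z2 _ k.1.2 fun e => k.2 (Subtype.ext e)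
    rwa [this])).1 ⟨_, ⟨pt z, (h2 z).1 z1, rfl⟩, rfl⟩
  obtain ⟨g, g1, g2⟩ := con_basic h1 p
  obtain ⟨F, F1, d, d1, k⟩ := a3_cutP s0 p
  obtain ⟨F', F2, d', d2, k'⟩ := a3_cutP t (PrimeSpectrum.comap (GMDiv.sub φ) p)
  have pp := p.isPrime
  have hg : g * d * GMDiv.sub φ d' ∉ p.asIdeal := fun m => by
    rcases pp.mem_or_mem m with m | m
    · exact (pp.mem_or_mem m).elim g1 d1
    · exact d2 (Ideal.mem_comap.2 m)
  refine ⟨F, GMDiv.sub φ F', g * d * GMDiv.sub φ d', ?_, fun x a1 a2 a3 => ?_⟩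
  · obtain ⟨x, x1, x2⟩ := exists_pt p hg
    exact ⟨x, (mem_pt x _).1 (x1 F1), (mem_pt x _).1 (x1 (Ideal.mem_comap.1 F2)), x2⟩
  · rw [map_mul, map_mul, mul_ne_zero_iff, mul_ne_zero_iff] at a3
    refine (h2 x).2 ((g2 _ (k x (k' _ ?_ ?_ ?_) a1 a3.1.2) fun m => a3.1.1 ((mem_pt x g).1 m)).2 p1)
    · exact p2 ▸ bot_le
    · rw [← a3_eval s0]
      exact a2
    · rw [← a3_eval s0]
      exact a3.2

end Pool.Agent.GMD16
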