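import Pool.Agent.Work.MP_274aea_ag_D16.A1
import Pool.Agent.Work.MP_274aea_ag_D16.A2
import Pool.Agent.Work.MP_274aea_ag_D16.A3

set_option autoImplicit false

open MvPolynomial Matrix Pool.Agent.GM16 Pool.Agent.GM34 Pool.Agent.GMDiv Filter Topology

namespace Pool.Agent.GMD16

theorem a4_con {ι κ α : Type} [Finite ι] [Finite κ] [Finite α] (E : κ → PR ι) (c : PR ι)
    (a : α → ι) :
    Con fun t : α → ℂ => ∃ x, ((∀ k, eval x (E k) = 0) ∧ eval x c ≠ 0) ∧ x ∘ a = t :=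
  ((con_fin fun k => Pol.eq ⟨E k, fun _ => rfl⟩).and (Pol.ne ⟨c, fun _ => rfl⟩)).img
    (f := fun x => x ∘ a) fun k => pol_X (a k)

theorem a4_dom {ι κ α : Type} [Fintype ι] [Fintype κ] [Finite α] {E : κ → PR ι} {T : Set ι}
    {x : ι → ℂ} (h : Surj E T x) {a : α → ι} (ha : Function.Injective a) {c : PR ι}
    (h0 : ∀ k, eval x (E k) = 0) (hc : eval x c ≠ 0) (f : PR α) (hf : f ≠ 0) :
    ∃ y : α → ℂ, eval y f ≠ 0 ∧ ∃ t : α → ℂ,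
      (∃ z, ((∀ k, eval z (E k) = 0) ∧ eval z c ≠ 0) ∧ z ∘ a = t) ∧ ∀ s, a s ∈ T → t s = y s := by
  obtain ⟨y, z, k1, k2, k3, k4⟩ := dom h ha hc f hf
  exact ⟨y, k1, _, ⟨z, ⟨fun k => (k2 k).trans (h0 k), k3⟩, rfl⟩, k4⟩

theorem a4_mul {ι α : Type} (x : ι → ℂ) (c : PR ι) (a : α → ι) (e : PR α) :
    eval x (c * rename a e) ≠ 0 ↔ eval x c ≠ 0 ∧ eval (x ∘ a) e ≠ 0 := by
  rw [map_mul, eval_rename, mul_ne_zero_iff]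

theorem a4_comp {ι κ α : Type} [Fintype ι] [Fintype κ] [Fintype α] [DecidableEq α]
    (E : κ → PR ι) {a : α → ι} (ha : Function.Injective a) (s0 : α) (c : PR ι) (x0 : ι → ℂ)
    (h0 : ∀ k, eval x0 (E k) = 0) (hc : eval x0 c ≠ 0)
    (h1 : ∀ x, eval x c ≠ 0 → Surj E {i | ∃ s, s ≠ s0 ∧ i = a s} x) :
    ∃ F e : PR α, (F = 0 ∨ Irreducible F) ∧
      (∀ x, (∀ k, eval x (E k) = 0) → eval x c ≠ 0 → eval (x ∘ a) e ≠ 0 → eval (x ∘ a) F = 0) ∧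
      ∀ f, ¬ F ∣ f → ∃ x, (∀ k, eval x (E k) = 0) ∧ eval x c ≠ 0 ∧ eval (x ∘ a) (e * f) ≠ 0 := by
  rcases select (G := fun t : α → ℂ => ∃ x, ((∀ k, eval x (E k) = 0) ∧ eval x c ≠ 0) ∧ x ∘ a = t)
    ⟨_, x0, ⟨h0, hc⟩, rfl⟩ with h | ⟨F, e, hF, ⟨_, ⟨x, ⟨k0, kc⟩, rfl⟩, ke⟩, h⟩
  · refine ⟨0, 1, Or.inl rfl, fun _ _ _ _ => map_zero _, fun f hf => ?_⟩
    obtain ⟨_, ⟨x, ⟨k0, kc⟩, rfl⟩, k⟩ := h f fun e => hf (e ▸ dvd_rfl)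
    exact ⟨x, k0, kc, by rwa [one_mul]⟩
  · refine ⟨F, e, Or.inr hF, fun x k1 k2 k3 => h _ ⟨x, ⟨k1, k2⟩, rfl⟩ k3, fun f hf => ?_⟩
    by_contra hn
    push Not at hn
    obtain ⟨F2, g2, i2, n2, hz⟩ := divisor (a4_con E (c * rename a e) a) s0 fun p hp => by
      obtain ⟨y, q1, t, q2, q3⟩ := a4_dom (h1 x kc) ha k0 ((a4_mul x c a e).2 ⟨kc, ke⟩) p hp
      exact ⟨y, q1, t, q2, fun s hs => q3 s ⟨s, hs, rfl⟩⟩
    have key : ∀ p : PR α, (∀ x, (∀ k, eval x (E k) = 0) → eval x c ≠ 0 → eval (x ∘ a) e ≠ 0 →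
        eval (x ∘ a) p = 0) → F2 ∣ p := fun p hp => by
      refine (i2.prime.dvd_or_dvd (irr_dvd (p := p * g2) i2 fun z q1 => ?_)).resolve_right n2
      rw [map_mul]
      by_cases q2 : eval z g2 = 0
      · rw [q2, mul_zero]
      · obtain ⟨w, ⟨w0, wc⟩, rfl⟩ := hz z q1 q2
        rw [a4_mul] at wc
        rw [hp w w0 wc.1 wc.2, zero_mul]
    refine hf ((i2.associated_of_dvd hF (key F fun w w0 wc we =>
      h _ ⟨w, ⟨w0, wc⟩, rfl⟩ we)).symm.dvd.trans (key f fun w w0 wc we => ?_))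
    have := hn w w0 wc
    rw [map_mul] at this
    exact (mul_eq_zero.1 this).resolve_left we

theorem transfer {ι κ α β : Type} [Fintype ι] [Fintype κ] [Fintype α] [Fintype β]
    [DecidableEq α] [DecidableEq β] [Nonempty β] (E : κ → PR ι) {a : α → ι} {b : β → ι}
    (ha : Function.Injective a) (hb : Function.Injective b) {s0 s2 : α} (hs : s2 ≠ s0) (c : PR ι)
    (x0 : ι → ℂ) (h0 : ∀ k, eval x0 (E k) = 0) (hc : eval x0 c ≠ 0)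
    (h1 : Surj E {i | ∃ s, s ≠ s0 ∧ i = a s} x0) (h2 : Surj E (Set.range b) x0)
    (R : (β → ℂ) → Prop) (hR : ∀ f : PR β, f ≠ 0 → ∃ F g : PR β,
      (∃ y, eval y F = 0 ∧ eval y (f * g) ≠ 0) ∧ ∀ y, eval y F = 0 → eval y g ≠ 0 → R y) :
    ∃ F : PR α, (F = 0 ∨ Irreducible F) ∧ ∀ f, ¬ F ∣ f → ∃ F1 F2 g : PR α,
      (∃ t, eval t F1 = 0 ∧ eval t F2 = 0 ∧ eval t (f * g) ≠ 0) ∧
      ∀ t, eval t F1 = 0 → eval t F2 = 0 → eval t g ≠ 0 → eval t F = 0 ∧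
        ∃ x, (∀ k, eval x (E k) = 0) ∧ eval x c ≠ 0 ∧ x ∘ a = t ∧ R (x ∘ b) := by
  obtain ⟨D1, d1, e1⟩ := rank_open h1
  obtain ⟨D2, d2, e2⟩ := rank_open h2
  have hm : ∀ x, eval x (c * D1 * D2) ≠ 0 ↔ (eval x c ≠ 0 ∧ eval x D1 ≠ 0) ∧ eval x D2 ≠ 0 :=
    fun x => by rw [map_mul, map_mul, mul_ne_zero_iff, mul_ne_zero_iff]
  obtain ⟨F, e, hF, hz, hf⟩ := a4_comp E ha s0 (c * D1 * D2) x0 h0 ((hm x0).2 ⟨⟨hc, d1⟩, d2⟩)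
    fun x hx => e1 x ((hm x).1 hx).1.2
  refine ⟨F, hF, fun f nf => ?_⟩
  obtain ⟨x1, k0, kc, ke⟩ := hf f nf
  obtain ⟨f0, n0, hf0⟩ := dense_con (a4_con E (c * D1 * D2 * rename a (e * f)) b) fun p hp => by
    obtain ⟨y, q1, t, q2, q3⟩ := a4_dom (e2 x1 ((hm x1).1 kc).2) hb k0
      ((a4_mul x1 _ a _).2 ⟨kc, ke⟩) p hp
    exact ⟨y, q1, funext (fun s => q3 s ⟨s, rfl⟩) ▸ q2⟩
  obtain ⟨F', g', ⟨y, y1, y2⟩, hR'⟩ := hR f0 n0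
  obtain ⟨F'', y', i, u1, u2, u3, u4⟩ := smooth_pt F' (f0 * g') y y1 y2
  rw [map_mul, mul_ne_zero_iff] at u3
  obtain ⟨x2, ⟨m0, mc⟩, rfl⟩ := hf0 y' u3.1
  have mc' := (hm x2).1 ((a4_mul x2 _ a _).1 mc).1
  obtain ⟨s1, hs1, hS⟩ := tangent ha hb hs (e1 x2 mc'.1.2) (e2 x2 mc'.2) F'' i u4
  obtain ⟨F1, F2, g, ⟨z, z1, z2, z3⟩, hall⟩ := divisor2
    (a4_con (fun k : Option κ => k.elim (rename b F'') E)
      (c * D1 * D2 * rename a (e * f) * rename b g') a) hs1 fun p hp => by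
    obtain ⟨y, q1, t, q2, q3⟩ := a4_dom hS ha (fun k => by
      cases k with
      | none => exact (eval_rename _ _ _).trans u2
      | some k => exact m0 k) ((a4_mul x2 _ b g').2 ⟨mc, u3.2⟩) p hp
    exact ⟨y, q1, t, q2, fun s n1 n2 => q3 s ⟨s, n1, n2, rfl⟩⟩
  refine ⟨F1, F2, g, ⟨z, z1, z2, ?_⟩, fun t t1 t2 t3 => ?_⟩
  · obtain ⟨w, ⟨-, wc⟩, rfl⟩ := hall z z1 z2 z3
    have := ((a4_mul w _ a _).1 ((a4_mul w _ b _).1 wc).1).2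
    rw [map_mul, mul_ne_zero_iff] at this ⊢
    exact ⟨this.2, z3⟩
  · obtain ⟨w, ⟨w0, wc⟩, rfl⟩ := hall t t1 t2 t3
    obtain ⟨w1, w2⟩ := (a4_mul w _ b _).1 wc
    obtain ⟨w3, w4⟩ := (a4_mul w _ a _).1 w1
    rw [map_mul, mul_ne_zero_iff] at w4
    exact ⟨hz w (fun k => w0 (some k)) w3 w4.1, w, fun k => w0 (some k), ((hm w).1 w3).1.1, rfl,
      hR' _ (u1 _ ((eval_rename _ _ _).symm.trans (w0 none))) w2⟩

end Pool.Agent.GMD16
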