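import Pool.Agent.Work.MP_274aea_ag_D16.D0

set_option autoImplicit false

open MvPolynomial Matrix Pool.Agent.GM16 Pool.Agent.GM34 Pool.Agent.GMDiv Filter Topology

namespace Pool.Agent.GMD16

/-- The block matrix with blocks `g` and `d`. -/
def b1_bt (g : M5 ℂ) (d : ℂ) : Matrix (Fin 6) (Fin 6) ℂ :=
  !![g 0 0, g 0 1, g 0 2, g 0 3, g 0 4, 0; g 1 0, g 1 1, g 1 2, g 1 3, g 1 4, 0;
    g 2 0, g 2 1, g 2 2, g 2 3, g 2 4, 0; g 3 0, g 3 1, g 3 2, g 3 3, g 3 4, 0;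
    g 4 0, g 4 1, g 4 2, g 4 3, g 4 4, 0; 0, 0, 0, 0, 0, d]

/-- The first five coordinates. -/
def b1_pr (u : Fin 6 → ℂ) : Fin 5 → ℂ := ![u 0, u 1, u 2, u 3, u 4]

theorem b1_pr_bt (g : M5 ℂ) (d : ℂ) (u : Fin 6 → ℂ) : b1_pr (b1_bt g d *ᵥ u) = g *ᵥ b1_pr u := by
  funext i
  fin_cases i <;> simp [b1_pr, b1_bt, mulVec, dotProduct, Fin.sum_univ_succ]

theorem b1_last (g : M5 ℂ) (d : ℂ) (u : Fin 6 → ℂ) : (b1_bt g d *ᵥ u) 5 = d * u 5 := by
  simp [b1_bt, mulVec, dotProduct, Fin.sum_univ_succ]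

theorem b1_inv {g g' : M5 ℂ} {d d' : ℂ} (e : g' * g = 1) (e' : d' * d = 1) :
    b1_bt g' d' * b1_bt g d = 1 := by
  refine Matrix.toLin'.injective (LinearMap.ext fun u => ?_)
  rw [toLin'_apply, toLin'_apply, one_mulVec, ← mulVec_mulVec]
  have h1 : b1_pr (b1_bt g' d' *ᵥ b1_bt g d *ᵥ u) = b1_pr u := by
    rw [b1_pr_bt, b1_pr_bt, mulVec_mulVec, e, one_mulVec]
  have h2 : (b1_bt g' d' *ᵥ b1_bt g d *ᵥ u) 5 = u 5 := by
    rw [b1_last, b1_last, ← mul_assoc, e', one_mul]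
  funext i
  fin_cases i
  exacts [congrFun h1 0, congrFun h1 1, congrFun h1 2, congrFun h1 3, congrFun h1 4, h2]

theorem b1_wN (u v w : Fin 6 → ℂ) : wN (w3 u v w) = u 5 • pw (b1_pr v) (b1_pr w) -
    v 5 • pw (b1_pr u) (b1_pr w) + w 5 • pw (b1_pr u) (b1_pr v) := by
  funext k
  fin_cases k <;> simp [wN, w3, pw, b1_pr] <;> ring

theorem b1_det (x y z : Fin 6 → ℂ) (u v : Fin 5 → ℂ) : xiN (w3 x y z) ⬝ᵥ pw u v =
    (Matrix.of ![u, v, b1_pr x, b1_pr y, b1_pr z]).det := by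
  rw [det_succ_row_zero]
  simp only [Fin.sum_univ_succ, Finset.univ_eq_empty, Finset.sum_empty]
  simp only [det_succ_row_zero (n := 3), det_fin_three, Fin.sum_univ_succ, Finset.univ_eq_empty,
    Finset.sum_empty, submatrix_apply, of_apply]
  simp [Fin.succAbove, xiN, w3, pw, b1_pr, dotProduct, Fin.sum_univ_succ]
  ring

theorem b1_ind {P : (Fin 6 → Fin 6 → Fin 6 → ℂ) → Prop} (h0 : P 0)
    (h1 : ∀ a b, P a → P b → P (a + b)) (h2 : ∀ (c : ℂ) u v w, P (c • w3 u v w))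
    {a : Fin 6 → Fin 6 → Fin 6 → ℂ} (h : ∀ i j k, a j i k = -a i j k ∧ a i k j = -a i j k) :
    P a := by
  have e : a = ∑ i, ∑ j, ∑ k,
      (a i j k / 6) • w3 (Pi.single i 1) (Pi.single j 1) (Pi.single k 1) := by
    funext p q r
    simp only [Finset.sum_apply, Pi.smul_apply, smul_eq_mul, parta_w3, Pi.single_apply, mul_add,
      mul_sub, Finset.sum_add_distrib, Finset.sum_sub_distrib, mul_ite, mul_one, mul_zero,
      Finset.sum_ite_eq, Finset.mem_univ, if_true, Finset.sum_ite_irrel,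
      Finset.sum_const_zero]
    have e1 := (h p q r).1
    have e2 := (h p q r).2
    have e3 := (h q p r).2
    have e4 := (h p r q).1
    have e5 := (h r p q).2
    linear_combination (1 / 6 : ℂ) * (e2 + e1 - (e3 - e1) - (e4 - e2) + (e5 - e4 + e2))
  rw [e]
  exact Finset.sum_induction _ P h1 h0 fun i _ => Finset.sum_induction _ P h1 h0 fun j _ =>
    Finset.sum_induction _ P h1 h0 fun k _ => h2 _ _ _ _

theorem b1_act_add (g : Matrix (Fin 6) (Fin 6) ℂ) (a b : Fin 6 → Fin 6 → Fin 6 → ℂ) :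
    act g (a + b) = act g a + act g b := by
  funext i j k
  simp only [act, Pi.add_apply, mul_add, Finset.sum_add_distrib]

theorem b1_act_smul (g : Matrix (Fin 6) (Fin 6) ℂ) (c : ℂ) (a : Fin 6 → Fin 6 → Fin 6 → ℂ) :
    act g (c • a) = c • act g a := by
  funext i j k
  simp only [act, Pi.smul_apply, smul_eq_mul, Finset.mul_sum, mul_left_comm _ c]

theorem b1_wN_add (a b : Fin 6 → Fin 6 → Fin 6 → ℂ) : wN (a + b) = wN a + wN b := by
  funext k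
  fin_cases k <;> simp [wN]

theorem b1_wN_smul (c : ℂ) (a : Fin 6 → Fin 6 → Fin 6 → ℂ) : wN (c • a) = c • wN a := by
  funext k
  fin_cases k <;> simp [wN]

theorem b1_xiN_add (a b : Fin 6 → Fin 6 → Fin 6 → ℂ) : xiN (a + b) = xiN a + xiN b := by
  funext k
  fin_cases k <;> simp [xiN, add_comm]

theorem b1_xiN_smul (c : ℂ) (a : Fin 6 → Fin 6 → Fin 6 → ℂ) : xiN (c • a) = c • xiN a := by
  funext k
  fin_cases k <;> simp [xiN]

theorem b1_W (g : M5 ℂ) (d : ℂ) {a : Fin 6 → Fin 6 → Fin 6 → ℂ}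
    (h : ∀ i j k, a j i k = -a i j k ∧ a i k j = -a i j k) :
    wN (act (b1_bt g d) a) = d • W2 g *ᵥ wN a := by
  have key : ∀ (c : ℂ) u v w, wN (act (b1_bt g d) (c • w3 u v w)) =
      d • W2 g *ᵥ wN (c • w3 u v w) := fun c u v w => by
    rw [b1_act_smul, b1_wN_smul, b1_wN_smul, act_w3, b1_wN, b1_wN]
    simp only [b1_pr_bt, b1_last, mulVec_smul, mulVec_add, mulVec_sub, W2_pw]
    module
  refine b1_ind (P := fun a => wN (act (b1_bt g d) a) = d • W2 g *ᵥ wN a) ?_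
    (fun a b ha hb => ?_) key h
  · simpa using key 0 0 0 0
  · simp only [b1_act_add, b1_wN_add, ha, hb, mulVec_add, smul_add]

theorem b1_X (g : M5 ℂ) (d : ℂ) {a : Fin 6 → Fin 6 → Fin 6 → ℂ}
    (h : ∀ i j k, a j i k = -a i j k ∧ a i k j = -a i j k) :
    (W2 g)ᵀ *ᵥ xiN (act (b1_bt g d) a) = g.det • xiN a := by
  have key : ∀ (c : ℂ) u v w, (W2 g)ᵀ *ᵥ xiN (act (b1_bt g d) (c • w3 u v w)) =
      g.det • xiN (c • w3 u v w) := fun c x y z => by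
    rw [b1_act_smul, b1_xiN_smul, b1_xiN_smul, act_w3, mulVec_smul, smul_comm g.det]
    congr 1
    funext k
    have h1 : ∀ u v : Fin 5 → ℂ, ((W2 g)ᵀ *ᵥ xiN (w3 (b1_bt g d *ᵥ x) (b1_bt g d *ᵥ y)
        (b1_bt g d *ᵥ z))) ⬝ᵥ pw u v = (g.det • xiN (w3 x y z)) ⬝ᵥ pw u v := fun u v => by
      rw [mulVec_transpose, ← dotProduct_mulVec, W2_pw, b1_det, smul_dotProduct, b1_det,
        smul_eq_mul, mul_comm, ← det_transpose g, ← det_mul]
      congr 1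
      ext i j
      simp only [b1_pr_bt]
      fin_cases i <;> simp [Matrix.mul_apply, mulVec, dotProduct, mul_comm]
    have h2 := h1 (Pi.single (ee k).1.1 1) (Pi.single (ee k).1.2 1)
    rwa [pw_basis, dotProduct_single, dotProduct_single, mul_one, mul_one] at h2
  refine b1_ind (P := fun a => (W2 g)ᵀ *ᵥ xiN (act (b1_bt g d) a) = g.det • xiN a) ?_
    (fun a b ha hb => ?_) key h
  · simpa using key 0 0 0 0
  · simp only [b1_act_add, b1_xiN_add, ha, hb, mulVec_add, smul_add]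

theorem b1_to {g g' : M5 ℂ} (e : g * g' = 1) {h h' : Fin 10 → ℂ} {q q' : M10 ℂ}
    (e1 : h' = h ᵥ* W2 g) (e2 : q' + q'ᵀ = (W2 g)ᵀ * (q + qᵀ) * W2 g)
    (a : Fin 6 → Fin 6 → Fin 6 → ℂ) (ha : InLagN h' q' a) :
    InLagN h q (act (b1_bt g g.det) a) := by
  obtain ⟨h1, h2, μ, h3⟩ := ha
  refine ⟨act_alt _ h1, ?_, g.det * μ, ?_⟩
  · rw [b1_W g _ h1, dotProduct_smul, dotProduct_mulVec, ← e1, h2, smul_zero]
  · have e3 : (W2 g')ᵀ * (W2 g)ᵀ = 1 := by rw [← transpose_mul, W2_inv e, transpose_one]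
    have e4 := congrArg ((W2 g')ᵀ *ᵥ ·) (b1_X g g.det h1)
    simp only [mulVec_mulVec, e3, one_mulVec] at e4
    rw [e4, h3, e1, e2, b1_W g _ h1, ← mulVec_transpose, mulVec_smul, mulVec_add, mulVec_smul,
      mulVec_mulVec, mulVec_mulVec, e3, one_mulVec, ← Matrix.mul_assoc, ← Matrix.mul_assoc, e3,
      Matrix.one_mul, mulVec_smul, mulVec_mulVec, smul_add, mul_smul]

theorem partner_W {g : M5 ℂ} (hg : g.det ≠ 0) (h : Fin 10 → ℂ) (q A : M10 ℂ) :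
    PartnerN (h ᵥ* W2 g) ((W2 g)ᵀ * q * W2 g + (A - Aᵀ)) h q := by
  have e : g * g⁻¹ = 1 := mul_nonsing_inv g (Ne.isUnit hg)
  have e' : g⁻¹ * g = 1 := nonsing_inv_mul g (Ne.isUnit hg)
  have e2 : (W2 g)ᵀ * q * W2 g + (A - Aᵀ) + ((W2 g)ᵀ * q * W2 g + (A - Aᵀ))ᵀ =
      (W2 g)ᵀ * (q + qᵀ) * W2 g := by
    simp only [transpose_add, transpose_sub, transpose_mul, transpose_transpose, Matrix.add_mul,
      Matrix.mul_add, Matrix.mul_assoc]
    abel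
  refine partner_intro (b1_bt g g.det) (b1_bt g⁻¹ g⁻¹.det)
    (b1_inv e' (by rw [← det_mul, e', det_one])) (b1_to e rfl e2) (b1_to e' ?_ ?_)
  · rw [vecMul_vecMul, W2_inv e, vecMul_one]
  · have e3 : (W2 g⁻¹)ᵀ * (W2 g)ᵀ = 1 := by rw [← transpose_mul, W2_inv e, transpose_one]
    rw [e2, ← Matrix.mul_assoc, ← Matrix.mul_assoc, e3, Matrix.one_mul, Matrix.mul_assoc, W2_inv e,
      Matrix.mul_one]

end Pool.Agent.GMD16
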