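import Pool.Agent.Work.MP_274aea_ag_D16.D0

set_option autoImplicit false

open MvPolynomial Matrix Pool.Agent.GM16 Pool.Agent.GM34 Pool.Agent.GMDiv Filter Topology

namespace Pool.Agent.GMD16

theorem b2_g1 {K : Type} [Field K] [Algebra ℂ K] (h : Fin 10 → ℂ) (Y : Fin 6 → K) :
    aeval Y ((fun i => C (h i)) ⬝ᵥ pch (X : Fin 6 → MvPolynomial (Fin 6) ℂ)) =
      (fun i => algebraMap ℂ K (h i)) ⬝ᵥ pch Y := by
  simp only [dotProduct, map_sum, map_mul, aeval_C, chart_map]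

theorem b2_g2 {K : Type} [Field K] [Algebra ℂ K] (q : M10 ℂ) (Y : Fin 6 → K) :
    aeval Y (bq (q.map C) (pch (X : Fin 6 → MvPolynomial (Fin 6) ℂ)) (pch X)) =
      bq (q.map (algebraMap ℂ K)) (pch Y) (pch Y) := by
  simp only [bq, dotProduct, mulVec, map_sum, map_mul, Matrix.map_apply, aeval_C, chart_map]

theorem b2_kill {h : Fin 10 → ℂ} {q : M10 ℂ} {y : Fin 6 → ℂ} (hy1 : h ⬝ᵥ pch y = 0)
    (hy2 : bq q (pch y) (pch y) = 0) {a : MvPolynomial (Fin 6) ℂ} (ha : a ∈ JN h q) :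
    aeval y a = 0 := by
  have : JN h q ≤ RingHom.ker (aeval y : MvPolynomial (Fin 6) ℂ →ₐ[ℂ] ℂ) := by
    refine Ideal.span_le.2 ?_
    rintro _ (rfl | rfl)
    · exact (b2_g1 h y).trans hy1
    · exact (b2_g2 q y).trans hy2
  exact this ha

theorem b2_gen {h : Fin 10 → ℂ} {q : M10 ℂ} (hr : RatN h q) : ∃ Y : Fin 6 → Om,
    GenPt h q (pch Y) ∧ ∀ a : MvPolynomial (Fin 6) ℂ, aeval Y a = 0 → a ∈ JN h q := by
  obtain ⟨hp, ⟨e⟩⟩ := hr
  have hd : IsDomain (MvPolynomial (Fin 6) ℂ ⧸ JN h q) := Ideal.Quotient.isDomain _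
  obtain ⟨Y, hY⟩ : ∃ Y : Fin 6 → Om, ∀ a : MvPolynomial (Fin 6) ℂ, aeval Y a =
      e (algebraMap (MvPolynomial (Fin 6) ℂ ⧸ JN h q) _ (Ideal.Quotient.mk (JN h q) a)) := by
    let φ : MvPolynomial (Fin 6) ℂ →ₐ[ℂ] Om := e.toAlgHom.comp
      ((IsScalarTower.toAlgHom ℂ (MvPolynomial (Fin 6) ℂ ⧸ JN h q) _).comp
        (Ideal.Quotient.mkₐ ℂ (JN h q)))
    refine ⟨fun i => φ (X i), fun a => ?_⟩
    have k : aeval (fun i => φ (X i)) = φ := MvPolynomial.algHom_ext fun i => aeval_X _ _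
    rw [k]
    rfl
  have h0 : ∀ a ∈ JN h q, aeval Y a = 0 := fun a ha => by
    rw [hY, Ideal.Quotient.eq_zero_iff_mem.2 ha, map_zero, map_zero]
  refine ⟨Y, ⟨plk_pw _ _, ?_, ?_, fun F hF ρ hρ hm => ?_⟩, fun a ha => ?_⟩
  · rw [← b2_g1]
    exact h0 _ (Ideal.subset_span (Or.inl rfl))
  · rw [← b2_g2]
    exact h0 _ (Ideal.subset_span (Or.inr rfl))
  · have m0 : ρ ∈ F := by simpa [pch, pw] using hm 0
    have m : ∀ i, pch Y i ∈ F := fun i => by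
      rw [← inv_mul_cancel_left₀ hρ (pch Y i)]
      exact mul_mem (inv_mem m0) (hm i)
    have mY : ∀ i, Y i ∈ F := fun i => by
      fin_cases i
      · simpa [pch, pw] using m 4
      · simpa [pch, pw] using m 5
      · simpa [pch, pw] using m 6
      · simpa [pch, pw] using m 1
      · simpa [pch, pw] using m 2
      · simpa [pch, pw] using m 3
    have mA : ∀ a : MvPolynomial (Fin 6) ℂ, aeval Y a ∈ F := fun a => by
      induction a using MvPolynomial.induction_on with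
      | C c => rw [aeval_C]; exact hF c
      | add a b ha hb => rw [map_add]; exact add_mem ha hb
      | mul_X a i ha => rw [map_mul, aeval_X]; exact mul_mem ha (mY i)
    refine eq_top_iff.2 fun z _ => ?_
    obtain ⟨w, rfl⟩ := e.surjective z
    obtain ⟨a, b, -, rfl⟩ :=
      IsFractionRing.div_surjective (A := MvPolynomial (Fin 6) ℂ ⧸ JN h q) w
    obtain ⟨a, rfl⟩ := Ideal.Quotient.mk_surjective a
    obtain ⟨b, rfl⟩ := Ideal.Quotient.mk_surjective b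
    rw [map_div₀, ← hY, ← hY]
    exact div_mem (mA a) (mA b)
  · rw [hY, map_eq_zero_iff _ e.injective,
      map_eq_zero_iff _ (IsFractionRing.injective (MvPolynomial (Fin 6) ℂ ⧸ JN h q) _)] at ha
    exact Ideal.Quotient.eq_zero_iff_mem.1 ha

theorem b2_anti {R : Type*} [CommRing R] (A : M10 R) (p : Fin 10 → R) : bq (A - Aᵀ) p p = 0 := by
  rw [bq, sub_mulVec, dotProduct_sub, mulVec_transpose, dotProduct_mulVec, dotProduct_comm p,
    sub_self]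

theorem b2_add {R : Type*} [CommRing R] (A B : M10 R) (p : Fin 10 → R) :
    bq (A + B) p p = bq A p p + bq B p p := by
  rw [bq, bq, bq, add_mulVec, dotProduct_add]

theorem b2_move {h : Fin 10 → ℂ} {q A : M10 ℂ} {c2 : ℂ} {g : M5 ℂ} (hd : g.det ≠ 0)
    {Y : Fin 6 → Om}
    (hY : GenPt (h ᵥ* W2 g) ((W2 g)ᵀ * (q + c2 • P0) * W2 g + (A - Aᵀ)) (pch Y)) :
    GenPt h q (W2 (g.map (algebraMap ℂ Om)) *ᵥ pch Y) := by
  obtain ⟨-, g2, g3, g4⟩ := hY
  have k1 : plk (W2 (g.map (algebraMap ℂ Om)) *ᵥ pch Y) = 0 := by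
    rw [pch, W2_pw, plk_pw]
  refine ⟨k1, ?_, ?_, fun F hF ρ hρ hm => g4 F hF ρ hρ fun i => ?_⟩
  · have e := maps2_vecMul (algebraMap ℂ Om) h (W2 g)
    rw [map_W2] at e
    rw [dotProduct_mulVec]
    exact (congrArg (· ⬝ᵥ pch Y) e).symm.trans g2
  · rw [maps2_add, maps2_sub, maps2_tr, maps2_mul, maps2_mul, maps2_tr, map_W2, maps2_add,
      maps2_smul, map_P0, b2_add, b2_anti, add_zero, bq, ← transfer_bq, b2_add] at g3
    have k2 : ∀ (c : Om) (p : Fin 10 → Om), bq (c • P0) p p = c * plk p 0 := fun c p => by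
      rw [← bq_P0, bq, bq, smul_mulVec, dotProduct_smul, smul_eq_mul]
    rwa [k2, k1, Pi.zero_apply, mul_zero, add_zero] at g3
  · have e : W2 (g⁻¹.map (algebraMap ℂ Om)) * W2 (g.map (algebraMap ℂ Om)) = 1 := W2_inv (by
      rw [← maps2_mul, nonsing_inv_mul _ (Ne.isUnit hd), maps2_one])
    have := transfer_mem F (A := W2 (g⁻¹.map (algebraMap ℂ Om))) (fun i j => by
      rw [← map_W2]
      exact hF _) hm i
    rwa [mulVec_mulVec, e, one_mulVec] at this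

theorem b2_psi {K : Type} [Field K] [Algebra ℂ K] (J : M3 ℂ) (G : M310 ℂ) (l : Fin 4 → ℂ)
    (g : M5 ℂ) (Z : Fin 6 → K) :
    aeval Z (psi (J.map C) (G.map C) (C ∘ l) (g.map C) (X : Fin 6 → MvPolynomial (Fin 6) ℂ)) =
      psi (J.map (algebraMap ℂ K)) (G.map (algebraMap ℂ K)) (algebraMap ℂ K ∘ l)
        (g.map (algebraMap ℂ K)) Z := by
  obtain ⟨f, hf, hC, hX⟩ : ∃ f : MvPolynomial (Fin 6) ℂ →+* K, (∀ a, aeval Z a = f a) ∧
      (∀ c, f (C c) = algebraMap ℂ K c) ∧ ∀ i, f (X i) = Z i :=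
    ⟨(aeval Z : MvPolynomial (Fin 6) ℂ →ₐ[ℂ] K), fun _ => rfl, fun c => aeval_C Z c,
      fun i => aeval_X Z i⟩
  have em : ∀ {ι κ : Type} (B : Matrix ι κ ℂ),
      (B.map (C : ℂ → MvPolynomial (Fin 6) ℂ)).map f = B.map (algebraMap ℂ K) :=
    fun B => Matrix.ext fun i j => hC _
  have ev : f ∘ (C ∘ l) = algebraMap ℂ K ∘ l := funext fun i => hC _
  have eX : f ∘ X = Z := funext hX
  rw [hf, map_psi, em, em, em, ev, eX]

theorem rat3 {h : Fin 10 → ℂ} {q A : M10 ℂ} {J N : M3 ℂ} {l : Fin 4 → ℂ} {c c2 : ℂ} {g : M5 ℂ}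
    (hp : HasPlane J (hG l h) (qG l c q)) (hN : LL J (qG l c q) * N = 1) (hg : gpr h q ≠ 0)
    (hd : g.det ≠ 0) {h1 : Fin 10 → ℂ} {q1 : M10 ℂ}
    (e1 : h1 = legH J N (hG l h) (qG l c q) ᵥ* W2 g)
    (e2 : q1 = (W2 g)ᵀ * (legQ J N (qG l c q) + c2 • P0) * W2 g + (A - Aᵀ)) {y : Fin 6 → ℂ}
    (hy1 : h1 ⬝ᵥ pch y = 0) (hy2 : bq q1 (pch y) (pch y) = 0)
    (hψ : psi J (Gm J N (qG l c q)) l g y ≠ 0) (hr : RatN h1 q1) : RatN h q := by
  obtain ⟨Y, hY, hk⟩ := b2_gen hr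
  have h2 : psi (J.map (algebraMap ℂ Om)) ((Gm J N (qG l c q)).map (algebraMap ℂ Om))
      (algebraMap ℂ Om ∘ l) (g.map (algebraMap ℂ Om)) Y ≠ 0 := fun e => by
    rw [← b2_psi] at e
    have k := b2_kill hy1 hy2 (hk _ e)
    rw [b2_psi] at k
    exact hψ k
  rw [map_Gm] at h2
  subst e1 e2
  exact good_rat hg (gl_gen (trf_gen hp hN (b2_move hd hY) (left_ne_zero_of_mul h2)))
    (right_ne_zero_of_mul h2)

end Pool.Agent.GMD16
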