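import Pool.Agent.Work.MP_274aea_ag_D16.D0
import Pool.Agent.Work.MP_274aea_ag_Div.ScC

set_option autoImplicit false

open MvPolynomial Matrix Pool.Agent.GM16 Pool.Agent.GM34 Pool.Agent.GMDiv Filter Topology

namespace Pool.Agent.GMD16

/-- The points of the scroll in Pluecker coordinates. -/
def b3_P {R : Type*} [CommRing R] (a0 a1 d w : R) : Fin 10 → R :=
  ![-(a0 * a0 * d), 0, -(a0 * a1 * d), -(a1 * a1 * d), a0 * a0 * w, 0, a0 * a1 * d, -(a0 * a1 * w),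
    -(a1 * a1 * w), a1 * a1 * d]

/-- The parameters of the sample points. -/
def b3_c : Fin 15 → Fin 4 → ℤ :=
  ![![1, 0, 1, 0], ![0, 1, 1, 0], ![1, 1, 1, 0], ![1, -1, 1, 0], ![1, 2, 1, 0],
    ![1, 0, 0, 1], ![0, 1, 0, 1], ![1, 1, 0, 1], ![1, -1, 0, 1], ![1, 2, 0, 1],
    ![1, 0, 1, 1], ![0, 1, 1, 1], ![1, 1, 1, 1], ![1, -1, 1, 1], ![1, 2, 1, 1]]

theorem b3_pw (a0 a1 b0 b1 w : ℂ) :
    pw ![0, a0 ^ 2, 0, a0 * a1, a1 ^ 2] ![a0 * b1 - a1 * b0, a0 * b0, w, a1 * b0, a1 * b1] =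
      b3_P a0 a1 (a0 * b1 - a1 * b0) w := by
  funext i
  fin_cases i <;> simp [pw, b3_P, sq] <;> ring

theorem b3_samp (k : Fin 15) : pw (su k) (sv k) =
    b3_P (b3_c k 0 : ℂ) (b3_c k 1) (b3_c k 2) (b3_c k 3) := by
  have h : ∀ k i, pw (suZ k) (svZ k) i = b3_P (b3_c k 0) (b3_c k 1) (b3_c k 2) (b3_c k 3) i := by
    decide
  funext i
  have := congrArg (Int.cast : ℤ → ℂ) (h k i)
  fin_cases i <;> simpa [pw, b3_P, su, sv] using this

theorem b3_d (k : Fin 15) : (b3_c k 0 : ℂ) * (b3_c k 2 * b3_c k 0) -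
    b3_c k 1 * (-b3_c k 2 * (1 - b3_c k 0)) = b3_c k 2 := by
  have h : ∀ k, b3_c k 0 * (b3_c k 2 * b3_c k 0) - b3_c k 1 * (-b3_c k 2 * (1 - b3_c k 0)) =
      b3_c k 2 := by decide
  exact_mod_cast h k

theorem b3_lin (h : Fin 10 → ℂ) (a0 a1 d w : ℂ) : h ⬝ᵥ b3_P a0 a1 d w =
    d * ((a0 * a0 - a0 * a1) * h ⬝ᵥ b3_P 1 0 1 0 + (a1 * a1 - a0 * a1) * h ⬝ᵥ b3_P 0 1 1 0 +
      a0 * a1 * h ⬝ᵥ b3_P 1 1 1 0) +
    w * ((a0 * a0 - a0 * a1) * h ⬝ᵥ b3_P 1 0 0 1 + (a1 * a1 - a0 * a1) * h ⬝ᵥ b3_P 0 1 0 1 +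
      a0 * a1 * h ⬝ᵥ b3_P 1 1 0 1) := by
  simp only [dotProduct, Fin.sum_univ_succ, b3_P, Matrix.cons_val_zero, Matrix.cons_val_succ,
    Finset.univ_eq_empty, Finset.sum_empty]
  ring

theorem b3_q1 (q : M10 ℂ) (a0 a1 d w : ℂ) : bq q (b3_P a0 a1 d w) (b3_P a0 a1 d w) =
    (d ^ 2 - d * w) * bq q (b3_P a0 a1 1 0) (b3_P a0 a1 1 0) +
      (w ^ 2 - d * w) * bq q (b3_P a0 a1 0 1) (b3_P a0 a1 0 1) +
      d * w * bq q (b3_P a0 a1 1 1) (b3_P a0 a1 1 1) := by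
  simp only [bq, mulVec, dotProduct, Fin.sum_univ_succ, b3_P, Matrix.cons_val_zero,
    Matrix.cons_val_succ, Finset.univ_eq_empty, Finset.sum_empty]
  ring

theorem b3_q2 (q : M10 ℂ) (a0 a1 d w : ℂ) : 6 * bq q (b3_P a0 a1 d w) (b3_P a0 a1 d w) =
    3 * (a0 * (a1 - a0) * (a1 + a0) * (a1 - 2 * a0)) * bq q (b3_P 1 0 d w) (b3_P 1 0 d w) +
      6 * (a1 * (a1 - a0) * (a1 + a0) * (a1 - 2 * a0)) * bq q (b3_P 0 1 d w) (b3_P 0 1 d w) -
      3 * (a0 * a1 * (a1 + a0) * (a1 - 2 * a0)) * bq q (b3_P 1 1 d w) (b3_P 1 1 d w) -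
      a0 * a1 * (a1 - a0) * (a1 - 2 * a0) * bq q (b3_P 1 (-1) d w) (b3_P 1 (-1) d w) +
      a0 * a1 * (a1 - a0) * (a1 + a0) * bq q (b3_P 1 2 d w) (b3_P 1 2 d w) := by
  simp only [bq, mulVec, dotProduct, Fin.sum_univ_succ, b3_P, Matrix.cons_val_zero,
    Matrix.cons_val_succ, Finset.univ_eq_empty, Finset.sum_empty]
  ring

theorem scr_iff (t : Par → ℂ) : ContainsScroll t ↔ Scr (hv t) (qm t) := by
  simp only [ContainsScroll, Scr, Hf_eq, Qf_eq, pl_ee, b3_pw, b3_samp]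
  refine ⟨fun h => ⟨fun k => ?_, fun k => ?_⟩, fun ⟨h1, h2⟩ a0 a1 b0 b1 w => ⟨?_, ?_⟩⟩
  · rw [← b3_d (hx k)]
    exact (h _ _ _ _ _).1
  · rw [← b3_d k]
    exact (h _ _ _ _ _).2
  · have e0 : hv t ⬝ᵥ b3_P 1 0 1 0 = 0 := by simpa [hx, b3_c] using h1 0
    have e1 : hv t ⬝ᵥ b3_P 0 1 1 0 = 0 := by simpa [hx, b3_c] using h1 1
    have e2 : hv t ⬝ᵥ b3_P 1 1 1 0 = 0 := by simpa [hx, b3_c] using h1 2
    have e3 : hv t ⬝ᵥ b3_P 1 0 0 1 = 0 := by simpa [hx, b3_c] using h1 3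
    have e4 : hv t ⬝ᵥ b3_P 0 1 0 1 = 0 := by simpa [hx, b3_c] using h1 4
    have e5 : hv t ⬝ᵥ b3_P 1 1 0 1 = 0 := by simpa [hx, b3_c] using h1 5
    rw [b3_lin, e0, e1, e2, e3, e4, e5]
    ring
  · have k : ∀ d w : ℂ, bq (qm t) (b3_P 1 0 d w) (b3_P 1 0 d w) = 0 →
        bq (qm t) (b3_P 0 1 d w) (b3_P 0 1 d w) = 0 → bq (qm t) (b3_P 1 1 d w) (b3_P 1 1 d w) = 0 →
        bq (qm t) (b3_P 1 (-1) d w) (b3_P 1 (-1) d w) = 0 →
        bq (qm t) (b3_P 1 2 d w) (b3_P 1 2 d w) = 0 →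
        bq (qm t) (b3_P a0 a1 d w) (b3_P a0 a1 d w) = 0 := fun d w e0 e1 e2 e3 e4 => by
      have := b3_q2 (qm t) a0 a1 d w
      rw [e0, e1, e2, e3, e4] at this
      linear_combination this / 6
    rw [b3_q1, k 1 0 (by simpa [b3_c] using h2 0) (by simpa [b3_c] using h2 1)
        (by simpa [b3_c] using h2 2) (by simpa [b3_c] using h2 3) (by simpa [b3_c] using h2 4),
      k 0 1 (by simpa [b3_c] using h2 5) (by simpa [b3_c] using h2 6)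
        (by simpa [b3_c] using h2 7) (by simpa [b3_c] using h2 8) (by simpa [b3_c] using h2 9),
      k 1 1 (by simpa [b3_c] using h2 10) (by simpa [b3_c] using h2 11)
        (by simpa [b3_c] using h2 12) (by simpa [b3_c] using h2 13) (by simpa [b3_c] using h2 14)]
    ring

theorem rat_of_chart {t : Par → ℂ} (h : Chart t) : RatN (hv t) (qm t) := by
  have := h _ rfl _ rfl
  rw [bridge_H, bridge_Q, bridge_pl] at this
  exact this

theorem b3_pull (A : (Par → ℂ) →ₗ[ℂ] Par → ℂ) (c : Par → ℂ) (f : PR Par) :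
    ∃ F : PR Par, ∀ y, eval y F = eval (A y + c) f := by
  have p3 : ∀ i, Pol fun x => (A x + c) i := fun i => by
    have k : ∀ x, (A x + c) i = ∑ s, x s * A (fun j => if s = j then 1 else 0) i + c i := fun x => by
      rw [Pi.add_apply, A.pi_apply_eq_sum_univ x, Finset.sum_apply]
      rfl
    simp only [k]
    exact (pol_sum fun s => (pol_X s).mul (pol_C _)).add (pol_C _)
  choose φ hφ using p3
  refine ⟨bind₁ φ f, fun y => ?_⟩
  rw [← coe_aeval_eq_eval, RingHom.coe_coe, aeval_bind₁, show A y + c = fun i => aeval y (φ i) from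
    funext fun i => hφ i y]
  rfl

/-- The families of `scroll_main`, pulled back along a linear projection onto the pairs that
contain the scroll. -/
theorem fam : ∃ pr : (Par → ℂ) →ₗ[ℂ] Par → ℂ, (∀ y, ContainsScroll (pr y)) ∧
    (∀ t, ContainsScroll t → pr t = t) ∧ ∀ f : PR Par, f ≠ 0 → ∃ F g : PR Par,
      (∃ y, eval y F = 0 ∧ eval y (f * g) ≠ 0) ∧ ∀ y, eval y F = 0 → eval y g ≠ 0 →
        IsSmoothGM (pr y) ∧ Chart (pr y) := by
  let L : Submodule ℂ (Par → ℂ) :=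
    { carrier := {t | ContainsScroll t}
      add_mem' := fun {x y} hx hy a0 a1 b0 b1 w => by
        rw [← one_smul ℂ y, (Reduce_add x y 1 _ 0).1, (Reduce_add x y 1 _ _).2,
          (hx a0 a1 b0 b1 w).1, (hx a0 a1 b0 b1 w).2, (hy a0 a1 b0 b1 w).1, (hy a0 a1 b0 b1 w).2]
        simp
      zero_mem' := fun a0 a1 b0 b1 w => by simp [Hf, Qf]
      smul_mem' := fun a x hx a0 a1 b0 b1 w => by
        rw [← zero_add (a • x), (Reduce_add 0 x a _ 0).1, (Reduce_add 0 x a _ _).2,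
          (hx a0 a1 b0 b1 w).1, (hx a0 a1 b0 b1 w).2]
        simp [Hf, Qf] }
  obtain ⟨r, hr⟩ := L.subtype.exists_leftInverse_of_injective L.ker_subtype
  let pr : (Par → ℂ) →ₗ[ℂ] Par → ℂ := L.subtype ∘ₗ r
  have h1 : ∀ y, ContainsScroll (pr y) := fun y => (r y).2
  have h2 : ∀ t, ContainsScroll t → pr t = t := fun t ht =>
    congrArg Subtype.val (LinearMap.congr_fun hr ⟨t, ht⟩)
  refine ⟨pr, h1, h2, fun f hf => ?_⟩
  obtain ⟨y1, hy⟩ : ∃ y, eval y f ≠ 0 := by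
    by_contra h
    push Not at h
    exact hf (MvPolynomial.funext fun x => by rw [h x, map_zero])
  obtain ⟨f', hf'⟩ := b3_pull LinearMap.id (y1 - pr y1) f
  obtain ⟨F, g, ⟨t, ht, k1, k2⟩, k⟩ := scroll_main f' ⟨pr y1, h1 y1, by
    rwa [hf', LinearMap.id_apply, add_sub_cancel]⟩
  obtain ⟨F', hF⟩ := b3_pull pr 0 F
  obtain ⟨g', hg⟩ := b3_pull pr 0 g
  have e : pr (t + (y1 - pr y1)) = t := by
    rw [map_add, map_sub, h2 t ht, h2 _ (h1 y1), sub_self, add_zero]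
  refine ⟨F', g', ⟨t + (y1 - pr y1), by rwa [hF, add_zero, e], ?_⟩, fun y a b => k _ (h1 y) ?_ ?_⟩
  · rwa [map_mul, hg, add_zero, e, ← LinearMap.id_apply (R := ℂ) t, ← hf', LinearMap.id_apply,
      ← map_mul]
  · rwa [hF, add_zero] at a
  · rwa [hg, add_zero] at b

end Pool.Agent.GMD16
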