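import Pool.Agent.Work.MP_274aea_ag_D34.Ext
import Pool.Agent.Work.MP_274aea_ag_Div.Chev

set_option autoImplicit false

open MvPolynomial Matrix Pool.Agent.GM16 Pool.Agent.GM34 Pool.Agent.GMDiv

namespace Pool.Agent.GMD16

/-- The derivative of the system `E` at `x` is onto when the variables in `T` are frozen. -/
def Surj {ι κ : Type} (E : κ → PR ι) (T : Set ι) (x : ι → ℂ) : Prop :=
  ∀ r : κ → ℂ, ∃ v : ι → ℂ, (∀ i ∈ T, v i = 0) ∧ ∀ k, (aeval (dn x v) (E k)).snd = r k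

abbrev M5 (R : Type*) := Matrix (Fin 5) (Fin 5) R

abbrev M310 (R : Type*) := Matrix (Fin 3) (Fin 10) R

/-- First vectors of fifteen points of the scroll. -/
def suZ : Fin 15 → Fin 5 → ℤ :=
  ![![0, 1, 0, 0, 0], ![0, 0, 0, 0, 1], ![0, 1, 0, 1, 1], ![0, 1, 0, -1, 1], ![0, 1, 0, 2, 4],
    ![0, 1, 0, 0, 0], ![0, 0, 0, 0, 1], ![0, 1, 0, 1, 1], ![0, 1, 0, -1, 1], ![0, 1, 0, 2, 4],
    ![0, 1, 0, 0, 0], ![0, 0, 0, 0, 1], ![0, 1, 0, 1, 1], ![0, 1, 0, -1, 1], ![0, 1, 0, 2, 4]]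

/-- Second vectors. -/
def svZ : Fin 15 → Fin 5 → ℤ :=
  ![![1, 0, 0, 0, 0], ![1, 0, 0, -1, 0], ![1, 0, 0, 0, 1], ![1, 0, 0, 0, -1], ![1, 0, 0, 0, 2],
    ![0, 0, 1, 0, 0], ![0, 0, 1, 0, 0], ![0, 0, 1, 0, 0], ![0, 0, 1, 0, 0], ![0, 0, 1, 0, 0],
    ![1, 0, 1, 0, 0], ![1, 0, 1, -1, 0], ![1, 0, 1, 0, 1], ![1, 0, 1, 0, -1], ![1, 0, 1, 0, 2]]

/-- Six of the points span the linear hull. -/
def hx : Fin 6 → Fin 15 := ![0, 1, 2, 5, 6, 7]

section Ring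

variable {R : Type*} [CommRing R]

/-- The second exterior power. -/
def W2 (g : M5 R) : M10 R := Matrix.of fun i j =>
  g (ee i).1.1 (ee j).1.1 * g (ee i).1.2 (ee j).1.2 -
    g (ee i).1.1 (ee j).1.2 * g (ee i).1.2 (ee j).1.1

def su (k : Fin 15) (i : Fin 5) : R := (suZ k i : R)

def sv (k : Fin 15) (i : Fin 5) : R := (svZ k i : R)

/-- The hyperplane and the quadric contain the sample points. -/
def Scr (h : Fin 10 → R) (q : M10 R) : Prop :=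
  (∀ k, h ⬝ᵥ pw (su (hx k)) (sv (hx k)) = 0) ∧
    ∀ k, bq q (pw (su k) (sv k)) (pw (su k) (sv k)) = 0

/-- The open condition for the transfer of a generic point. -/
def psi (J : M3 R) (G : M310 R) (l : Fin 4 → R) (g : M5 R) (y : Fin 6 → R) : R :=
  (Sm J (W2 g *ᵥ pch y)).det *
    (Gl l *ᵥ (jm J *ᵥ (-(W2 g *ᵥ pch y) 0 • (Sm J (W2 g *ᵥ pch y)).adjugate *ᵥ G *ᵥ W2 g *ᵥ pch y) +
      (Sm J (W2 g *ᵥ pch y)).det • io G (-Dr (1 : M10 R)) *ᵥ W2 g *ᵥ pch y)) 0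

theorem W2_pw (g : M5 R) (u v : Fin 5 → R) : W2 g *ᵥ pw u v = pw (g *ᵥ u) (g *ᵥ v) := by
  funext i
  fin_cases i <;> simp [W2, pw, mulVec, dotProduct, Fin.sum_univ_succ, ee] <;> ring

theorem pw_basis (k : Fin 10) :
    pw (Pi.single (ee k).1.1 (1 : R)) (Pi.single (ee k).1.2 1) = Pi.single k 1 := by
  funext i
  fin_cases k <;> fin_cases i <;> simp [pw, ee]

theorem W2_inv {g g' : M5 R} (h : g * g' = 1) : W2 g * W2 g' = 1 := by
  ext i k
  have e : (W2 g * W2 g') *ᵥ Pi.single k 1 = Pi.single k 1 := by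
    rw [← mulVec_mulVec, ← pw_basis, W2_pw, W2_pw, mulVec_mulVec, mulVec_mulVec, h, one_mulVec,
      one_mulVec]
  have := congrFun e i
  rw [mulVec_single_one] at this
  rw [one_apply, ← Pi.single_apply]
  exact this

variable {S : Type*} [CommRing S] (f : R →+* S)

theorem map_W2 (g : M5 R) : (W2 g).map f = W2 (g.map f) := by
  ext i j
  simp [W2]

theorem map_pch (y : Fin 6 → R) : f ∘ pch y = pch (f ∘ y) := by
  funext i
  fin_cases i <;> simp [pch, pw]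

theorem map_psi (J : M3 R) (G : M310 R) (l : Fin 4 → R) (g : M5 R) (y : Fin 6 → R) :
    f (psi J G l g y) = psi (J.map f) (G.map f) (f ∘ l) (g.map f) (f ∘ y) := by
  have e : ∀ v : Fin 10 → R, f (v 0) = (f ∘ v) 0 := fun _ => rfl
  rw [psi, map_mul, e, psi]
  simp only [maps2_vadd, maps2_vsmul, maps2_mulVec, maps2_adj, maps2_det, map_neg, map_jm,
    map_Sm, map_Gl, map_io, maps2_neg, map_Dr, maps2_one, map_W2, map_pch, e]

end Ring

end Pool.Agent.GMD16
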