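import Pool.Agent.Work.MP_274aea_ag_D16.D0

set_option autoImplicit false

open MvPolynomial Matrix Pool.Agent.GM16 Pool.Agent.GM34 Pool.Agent.GMDiv

namespace Pool.Agent.GMD16

/-- Auxiliary variables: `g`, `J`, `l`, `c`, `G`. -/
abbrev Aux3 := (Fin 5 × Fin 5) ⊕ (Fin 3 × Fin 3) ⊕ Fin 4 ⊕ Unit ⊕ (Fin 3 × Fin 10)

abbrev V3 := Par ⊕ Aux3

abbrev Eq3 := Fin 3 ⊕ Fin 6 ⊕ (Fin 3 × Fin 10) ⊕ Fin 6 ⊕ Fin 15

def h1Z : Fin 10 → ℤ := ![1, 0, 0, 0, 0, 0, 1, 0, 1, 0]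

def q1Z : M10 ℤ :=
  !![-2, 0, 1, -1, -1, 0, -1, 1, -1, 1;
    0, 0, -1, 0, 1, -2, 1, -1, 0, 0;
    0, 0, 1, -1, 0, 2, 0, 1, 0, 1;
    0, 0, 0, 0, 0, -1, -1, -1, 0, 0;
    0, 0, 0, 0, 0, 0, -1, 1, -1, 0;
    0, 0, 0, 0, 0, 0, 1, -1, 0, 1;
    0, 0, 0, 0, 0, 0, 0, 1, 0, 0;
    0, 0, 0, 0, 0, 0, 0, -1, 0, 0;
    0, 0, 0, 0, 0, 0, 0, 0, 0, 0;
    0, 0, 0, 0, 0, 0, 0, 0, 0, 0]

def h3Z : Fin 10 → ℤ := ![-1, 0, -1, -1, -1, 1, 0, 1, 0, -1]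

def q3Z : M10 ℤ :=
  !![1, -1, 1, 0, 0, 0, 0, 0, -1, 1;
    0, 0, 1, 0, 0, 0, 0, 0, 0, 0;
    -1, -1, 0, -1, -1, 1, 0, 1, -1, 0;
    2, -2, 2, 2, 2, -2, 0, -2, 0, 0;
    0, -2, 2, -1, 0, 0, 0, 0, -1, 0;
    -1, 1, 0, 0, 0, 0, 0, 0, 0, 1;
    -1, 1, -1, -1, -1, 1, 0, 1, 0, 0;
    -1, 1, -1, -1, -1, 1, 0, 1, 0, 0;
    0, 0, 0, 0, 0, 0, 0, 0, 0, 0;
    0, 0, 0, 0, 0, 0, 0, 0, 0, 0]

def g0Z : M5 ℤ := !![0, 1, 1, 0, 0; 0, 0, 0, 1, 0; 1, 0, 0, 0, 0; 0, 0, 0, 0, 1; 0, 0, 1, 0, 0]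

def giZ : M5 ℤ := !![0, 0, 1, 0, 0; 1, 0, 0, 0, -1; 0, 0, 0, 0, 1; 0, 1, 0, 0, 0; 0, 0, 0, 1, 0]

def J1Z : M3 ℤ := !![0, 0, -1; 0, 0, 1; 0, 0, 0]

def L1Z : M3 ℤ := !![0, 1, 1; 1, 0, -1; 0, 0, 1]

def J3Z : M3 ℤ := !![0, 0, 0; 0, 0, 0; 1, -1, 0]

def G3Z : M310 ℤ :=
  !![-1, 1, 0, 0, 0, 0, -1, 1, -1, 0;
    0, -2, 2, -1, 0, 0, 1, -1, 0, 1;
    -1, 1, -1, -1, 0, 0, 0, 1, 0, 0]

def y3Z : Fin 6 → ℤ := ![-1, 0, 1, 0, 1, 1]

section Ring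

variable {R : Type*} [CommRing R]

def mk3 (t : Par → R) (g : M5 R) (J : M3 R) (l : Fin 4 → R) (c : R) (G : M310 R) : V3 → R :=
  Sum.elim t <| Sum.elim (fun k => g k.1 k.2) <| Sum.elim (fun k => J k.1 k.2) <| Sum.elim l <|
    Sum.elim (fun _ => c) fun k => G k.1 k.2

def vg (x : V3 → R) : M5 R := Matrix.of fun i j => x (Sum.inr (Sum.inl (i, j)))

def vJ (x : V3 → R) : M3 R := Matrix.of fun i j => x (Sum.inr (Sum.inr (Sum.inl (i, j))))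

def vl (x : V3 → R) (i : Fin 4) : R := x (Sum.inr (Sum.inr (Sum.inr (Sum.inl i))))

def vc (x : V3 → R) : R := x (Sum.inr (Sum.inr (Sum.inr (Sum.inr (Sum.inl ())))))

def vG (x : V3 → R) : M310 R :=
  Matrix.of fun i j => x (Sum.inr (Sum.inr (Sum.inr (Sum.inr (Sum.inr (i, j))))))

def vh (x : V3 → R) : Fin 10 → R := hG (vl x) (hv (x ∘ Sum.inl))

def vq (x : V3 → R) : M10 R := qG (vl x) (vc x) (qm (x ∘ Sum.inl))

/-- The sample points of the moved scroll. -/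
def Pg (g : M5 R) : Matrix (Fin 10) (Fin 15) R :=
  Matrix.of fun i k => pw (g *ᵥ su k) (g *ᵥ sv k) i

def F3core (h : Fin 10 → R) (q : M10 R) (P : Matrix (Fin 10) (Fin 15) R) (J : M3 R) (G : M310 R) :
    Eq3 → R :=
  Sum.elim (h ᵥ* jm J) <| Sum.elim (fun k => ((jm J)ᵀ * (q + qᵀ) * jm J) (sy k).1 (sy k).2) <|
    Sum.elim (fun k => ((jm J)ᵀ * (q + qᵀ) * io G (-Dr (1 : M10 R)) -
        (Yr (1 : M10 R) + Jᵀ * Xr (1 : M10 R))) k.1 k.2) <|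
      Sum.elim (fun k => (h ᵥ* io (G * P) (-Dr P)) (hx k)) fun k =>
        ((Xr P)ᵀ * (G * P) - (io (G * P) (-Dr P))ᵀ * q * io (G * P) (-Dr P)) k k

/-- The large system. -/
def F3 (x : V3 → R) : Eq3 → R := F3core (vh x) (vq x) (Pg (vg x)) (vJ x) (vG x)

def lH (h : Fin 10 → R) (G : M310 R) : Fin 10 → R := h ᵥ* io G (-Dr (1 : M10 R))

def lQ (q : M10 R) (G : M310 R) : M10 R :=
  (Xr (1 : M10 R))ᵀ * G - (io G (-Dr (1 : M10 R)))ᵀ * q * io G (-Dr (1 : M10 R))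

/-- The partner that contains the fixed scroll. -/
def rho (x : V3 → R) (A : M10 R) (c : R) : Par → R :=
  mkP (lH (vh x) (vG x) ᵥ* W2 (vg x))
    ((W2 (vg x))ᵀ * (lQ (vq x) (vG x) + c • P0) * W2 (vg x) + (A - Aᵀ))

def cnd (x : V3 → R) : R :=
  (LL (vJ x) (vq x)).det * gpr (hv (x ∘ Sum.inl)) (qm (x ∘ Sum.inl)) * (vg x).det *
    psi (vJ x) (vG x) (vl x) (vg x) fun i => (y3Z i : R)

theorem bq_W (q W : M10 R) (p : Fin 10 → R) : bq (Wᵀ * q * W) p p = bq q (W *ᵥ p) (W *ᵥ p) :=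
  (transfer_bq q W W p p).symm

theorem bq_add (q q' : M10 R) (p : Fin 10 → R) : bq (q + q') p p = bq q p p + bq q' p p := by
  rw [bq, bq, bq, add_mulVec, dotProduct_add]

theorem bq_smul (c : R) (q : M10 R) (p : Fin 10 → R) : bq (c • q) p p = c * bq q p p := by
  rw [bq, bq, smul_mulVec, dotProduct_smul, smul_eq_mul]

theorem bq_tr (q : M10 R) (p : Fin 10 → R) : bq qᵀ p p = bq q p p := by
  rw [bq, bq, mulVec_transpose, dotProduct_mulVec, dotProduct_comm]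

theorem bq_ext (g : M5 R) (q A : M10 R) (c : R) (u v : Fin 5 → R) :
    bq ((W2 g)ᵀ * (q + c • P0) * W2 g + (A - Aᵀ)) (pw u v) (pw u v) =
      bq ((W2 g)ᵀ * q * W2 g) (pw u v) (pw u v) := by
  have e : bq (A - Aᵀ) (pw u v) (pw u v) = 0 := by
    have := bq_add (A - Aᵀ) Aᵀ (pw u v)
    rw [sub_add_cancel, bq_tr] at this
    linear_combination -this
  rw [bq_add, e, bq_W, bq_W, bq_add, bq_smul, W2_pw, bq_P0, plk_pw]
  simp

theorem scr_P (g : M5 R) (h : Fin 10 → R) (q : M10 R) :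
    Scr (h ᵥ* W2 g) ((W2 g)ᵀ * q * W2 g) ↔
      (∀ k, (h ᵥ* Pg g) (hx k) = 0) ∧ ∀ k, ((Pg g)ᵀ * q * Pg g) k k = 0 := by
  simp only [Scr, bq_W, ← dotProduct_mulVec, W2_pw, Matrix.mul_assoc (Pg g)ᵀ]
  rfl

theorem F3core_iff {J N : M3 R} {q : M10 R} (hN : LL J q * N = 1) (h : Fin 10 → R) (g : M5 R)
    (G : M310 R) : F3core h q (Pg g) J G = 0 ↔ HasPlane J h q ∧ G = Gm J N q ∧
      Scr (legH J N h q ᵥ* W2 g) ((W2 g)ᵀ * legQ J N q * W2 g) := by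
  have hN' : N * LL J q = 1 := mul_eq_one_comm.1 hN
  have k : ∀ P : M10 R,
      (jm J)ᵀ * (q + qᵀ) * io G (-Dr P) - (Yr P + Jᵀ * Xr P) = 0 ↔ G = Gm J N q * P := fun P => by
    rw [leg_Si, leg_Gm, leg_X, leg_Y, leg_D, Matrix.mul_neg, sub_eq_zero, add_neg_eq_iff_eq_add]
    refine ⟨fun e => ?_, fun e => ?_⟩
    · rw [← e, ← Matrix.mul_assoc, hN', Matrix.one_mul]
    · rw [e, ← Matrix.mul_assoc, hN, Matrix.one_mul]
  rw [HasPlane, ← leg_sy, scr_P, leg_Q, legH, vecMul_vecMul, leg_E, leg_X, leg_D, and_assoc]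
  have k2 : F3core h q (Pg g) J G = 0 ↔ h ᵥ* jm J = 0 ∧
      (∀ k, ((jm J)ᵀ * (q + qᵀ) * jm J) (sy k).1 (sy k).2 = 0) ∧
      (jm J)ᵀ * (q + qᵀ) * io G (-Dr (1 : M10 R)) -
        (Yr (1 : M10 R) + Jᵀ * Xr (1 : M10 R)) = 0 ∧
      (∀ k, (h ᵥ* io (G * Pg g) (-Dr (Pg g))) (hx k) = 0) ∧ ∀ k, ((Xr (Pg g))ᵀ * (G * Pg g) -
        (io (G * Pg g) (-Dr (Pg g)))ᵀ * q * io (G * Pg g) (-Dr (Pg g))) k k = 0 := by
    rw [_root_.funext_iff, _root_.funext_iff, ← Matrix.ext_iff]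
    simp only [Sum.forall, Prod.forall]
    rfl
  rw [k2, k, Matrix.mul_one]
  refine and_congr_right fun _ => and_congr_right fun _ => and_congr_right fun e => ?_
  rw [← e]

variable {S : Type*} [CommRing S] (f : R →+* S)

theorem map_su (k : Fin 15) : f ∘ su k = su k := funext fun _ => map_intCast f _

theorem map_sv (k : Fin 15) : f ∘ sv k = sv k := funext fun _ => map_intCast f _

theorem map_Scr {h : Fin 10 → R} {q : M10 R} (H : Scr h q) : Scr (f ∘ h) (q.map f) := by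
  refine ⟨fun k => ?_, fun k => ?_⟩
  · rw [← map_su f, ← map_sv f, ← map_pw, ← RingHom.map_dotProduct, H.1, map_zero]
  · rw [← map_su f, ← map_sv f, ← map_pw, ← map_bq, H.2, map_zero]

theorem map_Pg (g : M5 R) : (Pg g).map f = Pg (g.map f) := by
  ext i k
  have := congrFun (map_pw f (g *ᵥ su k) (g *ᵥ sv k)) i
  rwa [maps_mulVec, maps_mulVec, map_su, map_sv] at this

theorem map_vh (x : V3 → R) : f ∘ vh x = vh (f ∘ x) := map_hG f _ _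

theorem map_vq (x : V3 → R) : (vq x).map f = vq (f ∘ x) := map_qG f _ _ _

theorem map_F3 (x : V3 → R) (k : Eq3) : f (F3 x k) = F3 (f ∘ x) k := by
  have e : ∀ (h : Fin 10 → R) (q : M10 R) (P : Matrix (Fin 10) (Fin 15) R) (J : M3 R) (G : M310 R),
      f (F3core h q P J G k) = F3core (f ∘ h) (q.map f) (P.map f) (J.map f) (G.map f) k := by
    intro h q P J G
    have e1 : (1 : M10 S) = (1 : M10 R).map f := (maps2_one f).symm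
    simp only [F3core, e1, ← map_jm, ← map_Dr, ← map_Xr, ← map_Yr, ← maps2_neg, ← map_io,
      ← maps2_tr, ← maps2_add, ← maps2_mul, ← maps2_sub, ← maps2_vecMul]
    rcases k with k | k | k | k | k <;> rfl
  rw [F3, e, map_vh, map_vq, map_Pg]
  rfl

theorem map_rho (x : V3 → R) (A : M10 R) (c : R) :
    f ∘ rho x A c = rho (f ∘ x) (A.map f) (f c) := by
  simp only [rho, lH, lQ, map_mkP, maps2_vecMul, maps2_mul, maps2_add, maps2_sub, maps2_tr,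
    maps2_smul, map_P0, map_W2, map_io, maps2_neg, map_Dr, map_Xr, maps2_one, map_vh, map_vq]
  rfl

theorem map_cnd (x : V3 → R) : f (cnd x) = cnd (f ∘ x) := by
  have e : f ∘ (fun i => (y3Z i : R)) = fun i => (y3Z i : S) := funext fun _ => map_intCast f _
  rw [cnd, map_mul, map_mul, map_mul, map_psi, map_gpr, maps2_det, maps2_det, map_LL, map_vq, e]
  rfl

theorem map_mk3 (t : Par → R) (g : M5 R) (J : M3 R) (l : Fin 4 → R) (c : R) (G : M310 R) :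
    f ∘ mk3 t g J l c G = mk3 (f ∘ t) (g.map f) (J.map f) (f ∘ l) (f c) (G.map f) := by
  funext i
  rcases i with i | i | i | i | i | i <;> rfl

end Ring

/-- The witness. -/
def x3Z : V3 → ℤ := mk3 (mkP h3Z q3Z) g0Z J3Z 0 0 G3Z

end Pool.Agent.GMD16
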