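import Pool.Agent.Work.MP_274aea_ag_D16.D1

set_option autoImplicit false

open MvPolynomial Matrix Pool.Agent.GM16 Pool.Agent.GM34 Pool.Agent.GMDiv

namespace Pool.Agent.GMD16

theorem c3_hom {ι S : Type*} [CommRing S] (x : ι → ℤ) (w : ι → ℕ → ℤ) (t : ℕ → S) :
    cert2_hom t ∘ (fun i => (TrivSqZeroExt.inl (x i) + TrivSqZeroExt.inr (w i) : cert2_R)) =
      dn (fun i => (x i : S)) fun i => ∑ j ∈ Finset.range 70, t j * (w i j : S) := by
  funext i
  ext <;> simp [cert2_hom, dn]

theorem c3_solve {κ : Type} [Fintype κ] [DecidableEq κ] (val : κ → ℕ → ℤ) (ix : κ → ℕ)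
    (hix : ∀ k, ix k < 70) (h : ∀ k k', val k (ix k') % 5 = if k = k' then 1 else 0) (r : κ → ℂ) :
    ∃ t : ℕ → ℂ, ∀ k, ∑ j ∈ Finset.range 70, t j * (val k j : ℂ) = r k := by
  let M : Matrix κ κ ℤ := Matrix.of fun k k' => val k (ix k')
  have h0 : M.det ≠ 0 := by
    intro h0
    have e : (Int.castRingHom (ZMod 5)).mapMatrix M = 1 := by
      ext k k'
      rw [RingHom.mapMatrix_apply, map_apply, one_apply, eq_intCast, ← ZMod.intCast_mod]
      refine (congrArg (Int.cast : ℤ → ZMod 5) (h k k')).trans ?_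
      split_ifs <;> simp
    have h2 := (Int.castRingHom (ZMod 5)).map_det M
    rw [e, h0, det_one, map_zero] at h2
    exact absurd h2 (by decide)
  have hd : ((Int.castRingHom ℂ).mapMatrix M).det ≠ 0 := by
    rw [← RingHom.map_det, eq_intCast]
    exact_mod_cast h0
  obtain ⟨y, hy⟩ := (mulVec_surjective_iff_isUnit.2
    ((isUnit_iff_isUnit_det _).2 (isUnit_iff_ne_zero.2 hd))) r
  refine ⟨fun j => ∑ k', if j = ix k' then y k' else 0, fun k => ?_⟩
  rw [← hy]
  simp only [Finset.sum_mul, ite_mul, zero_mul, mulVec, dotProduct]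
  rw [Finset.sum_comm]
  refine Finset.sum_congr rfl fun k' _ => ?_
  rw [Finset.sum_ite_eq', if_pos (Finset.mem_range.2 (hix k')), mul_comm]
  rfl

/-- The table of the certificate: sixty digits in base eight for each variable. -/
def c3_T : V3 → ℤ :=
  mk3 (fun s => if s = s0 then 0x3138532a370920b9034946190c291a04170a0147186e2 else 0)
    !![0x69925288125b4d94020cc08304c2d88832982e4099324,
      0x3195184193105096418247090a350b2c3694811860921,
      0x4c449470028169464389b40a0003241044588da4048e3,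
      0x65a8e348b51c8e48c00029191190a24024e481b2d20e0,
      0x6d86920e330000b2424532e10543016826c171400a908;
      0xc411b8444a46614817086140ca6e384190804c6a0013,
      0x20a85b4c101a8216c232166411172368060261128b0d9,
      0xc431b9044946614817086140ca6e384190804c6a0013,
      0x11391182188b69430465845a1112a26811214c34cb654,
      0;
      0,
      0x6194e43248994138c188b6d208b68b8419216c841391b,
      0x8096e28da91888a4c00432410da65040404a303291260,
      0x70c64b6196024621011148640006a10c369a0528544e4,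
      0x6d86920e330020c2424532e20103216826c171408a900;
      0x404530c391b29c8044d17131112d96026d24942da293,
      0x8391c65b2894896c06514090200a028131202346090c,
      0x20c9208882e286368250125409388460464c29031150b,
      0,
      0;
      0,
      0x8a48248131246539018943220d22206826cb8d2454459,
      0,
      0x71c0d231829269b24291a51c11900a48111200402451a,
      0x6dc6920e330080a2424532e00933096826c171404a918]
    !![0x4904db08a84002188261a88c0188444c348445c88221b,
      0x92084911468001a6c26cc71300868384190388a89c44b,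
      0x3000100;
      0x4904db08a8400218840da88c0188444c348445c91a814,
      0x6d86920e330000c2412532e10103016826c17120cc912,
      0x100000000000000000000000000;
      0x4904db08a84002188261a88c0188444c348445c88221c,
      0x6d86920e330000c2c32532e10103016826c17104cb851,
      0x408000000000000000000000c0008]
    ![0x92084911468001a6416cc71300868384190388b71c40b,
      0x40000000000000000000000000000,
      0xc0008,
      0x92084911468001a6018cc71300868384190388965c403]
    0x6d86920e330000c2c34532e10103016826c171324b819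
    !![0x2483240594c00134010614620204c25042422e0692603,
      0x2483240594c00134040a149a0204c33042422e3211712,
      0x92084911468001a70128c91300868b84190388b8d8464,
      0x2483240594c00134c08a245a0205023042422e4211712,
      0x92084911468001a6c26d471300888384190388889c40b,
      0x6d86920e330000c2412532e10113016826c17120cc912,
      0x4904db08a84002184351a88c0208444c348445b022264,
      0x44000000400000000000026400d0,
      0x2483240594c001340c2a145a2204c23042422e4451622,
      0x6d86920e330000c2c10532e20103016826c17142cb811;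
      0x4408002000000000000000a088664,
      0x2483240594c00134c026141a0204c230424232448960a,
      0x92084911468001a60480c51300868384190308c6a4013,
      0x4904db08a8400218836d988c0188444c348045a85a20c,
      0x4904db08a84002188261288c0188444c348c45988225b,
      0x4904db08a8400218840da88c0188444c34c445c91a814,
      0x80040000000000000200002088020,
      0x92084911468001a6c284c71300868384290388968c413,
      0x92084911468001a6a26cc71300868384990388a69c413,
      0x92084911468001a6c18cc71300868388190388965c403;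
      0x819000080000000000000020c0108,
      0x2483240594c00134034a149a0204c23042422e0451622,
      0x92084911468001a60268c91300868384190388b69c413,
      0x6d86920e330000c2c34542e10103016826c17102cb811,
      0x8000000000000000003000100,
      0,
      0,
      0,
      0x8000000000000000000000080020,
      0]

def c3_w (i : V3) (j : ℕ) : ℤ := c3_T i / 8 ^ j % 8

def c3_ix : Eq3 → ℕ :=
  Sum.elim (fun a => a.val) <| Sum.elim (fun a => 3 + a.val) <|
    Sum.elim (fun a => 9 + 10 * a.1.val + a.2.val) <| Sum.elim (fun a => 39 + a.val)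
      fun a => 45 + a.val

def c3_V (i : V3) : ℤ := ∑ j ∈ Finset.range 70, (2 ^ 84) ^ j * c3_w i j

def c3_E (k : Eq3) : ℤ :=
  (F3 (dn x3Z c3_V) k).snd + ∑ j ∈ Finset.range 70, (2 ^ 84) ^ j * (5 * 2 ^ 80)

theorem c3_chk : ∀ k k' : Eq3, c3_E k / (2 ^ 84) ^ c3_ix k' % 2 ^ 84 % 5 =
    if k = k' then 1 else 0 := by
  decide +kernel

theorem c3_ix_lt : ∀ k : Eq3, c3_ix k < 70 := by decide +kernel

theorem c3_x : ∀ i : V3, |x3Z i| ≤ 3 := by decide +kernel

def c3_X (i : V3) : cert2_R := TrivSqZeroExt.inl (x3Z i) + TrivSqZeroExt.inr (c3_w i)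

theorem c3_lin {S : Type*} [CommRing S] (t : ℕ → S) (k : Eq3) :
    (F3 (dn (fun i => (x3Z i : S)) fun i => ∑ j ∈ Finset.range 70, t j * (c3_w i j : S)) k).snd =
      ∑ j ∈ Finset.range 70, t j * ((F3 c3_X k).snd j : S) := by
  rw [← c3_hom, ← map_F3]
  simp only [cert2_hom, RingHom.coe_mk, MonoidHom.coe_mk, OneHom.coe_mk, TrivSqZeroExt.snd_add,
    TrivSqZeroExt.snd_inl, TrivSqZeroExt.snd_inr, zero_add]
  rfl

theorem c3_cast (j : ℕ) {a : ℤ} (h : |a| ≤ 4) : cert2_L j 4 (a : cert2_R) := by
  simpa [cert2_L] using h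

theorem c3_pw {j : ℕ} {a : ℤ} {u v : Fin 5 → cert2_R} (hu : ∀ i, cert2_L j a (u i))
    (hv : ∀ i, cert2_L j a (v i)) : ∀ s, cert2_L j (a * a + a * a) (pw u v s) := by
  simp only [pw, Fin.forall_fin_succ, cons_val_zero, cons_val_succ, IsEmpty.forall_iff, and_true]
  refine ⟨?_, ?_, ?_, ?_, ?_, ?_, ?_, ?_, ?_, ?_⟩ <;>
    exact cert2_sub (cert2_mul (hu _) (hv _)) (cert2_mul (hu _) (hv _))

theorem c3_bd (j : ℕ) {x : V3 → cert2_R} (hx' : ∀ i, cert2_L j 10 (x i)) (k : Eq3) :
    cert2_L j (2 ^ 80) (F3 x k) := by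
  have hG' : ∀ r s, cert2_L j 10 (Gl (vl x) r s) :=
    cert2_Gl (cert2_zero (by norm_num)) (cert2_one (by norm_num)) (fun _ => hx' _)
      fun _ => cert2_neg (hx' _)
  have hh : ∀ s, cert2_L j _ (vh x s) := cert2_vm (fun _ => hx' _) hG'
  have hq : ∀ r s, cert2_L j _ (vq x r s) := fun r s =>
    cert2_add (cert2_mm (cert2_mm (fun r s => hG' s r) (B := qm (x ∘ Sum.inl)) fun _ _ => hx' _)
      hG' r s) (cert2_mul (hx' _) (cert2_P0 (P := cert2_L j 1) (cert2_zero (by norm_num))
        (cert2_one le_rfl) (cert2_neg (cert2_one le_rfl)) r s))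
  have hu : ∀ k i, |suZ k i| ≤ 4 := by decide +kernel
  have hv' : ∀ k i, |svZ k i| ≤ 4 := by decide +kernel
  have hP : ∀ r s, cert2_L j 80000 (Pg (vg x) r s) := fun r s => cert2_mono
    (c3_pw (u := vg x *ᵥ su s) (v := vg x *ᵥ sv s)
      (fun i => cert2_sum fun i' => cert2_mul (hx' _) (c3_cast j (hu s i')))
      (fun i => cert2_sum fun i' => cert2_mul (hx' _) (c3_cast j (hv' s i'))) r) (by norm_num)
  have hJ : ∀ r s, cert2_L j 10 (vJ x r s) := fun _ _ => hx' _
  have hY : ∀ r s, cert2_L j 10 (vG x r s) := fun _ _ => hx' _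
  have h1 : ∀ r s, cert2_L j 10 ((1 : M10 cert2_R) r s) := fun r s => by
    rw [one_apply]
    split_ifs
    exacts [cert2_one (by norm_num), cert2_zero (by norm_num)]
  unfold F3
  generalize vh x = h at hh
  generalize vq x = q at hq
  generalize Pg (vg x) = p at hP
  generalize vJ x = J at hJ
  generalize vG x = G at hY
  have hj : ∀ r s, cert2_L j 10 (jm J r s) :=
    cert2_jm (cert2_zero (by norm_num)) (cert2_one (by norm_num)) hJ fun _ _ => cert2_neg (hJ _ _)
  have hZ : ∀ r s, cert2_L j 8000000 ((G * p) r s) := fun r s =>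
    cert2_mono (cert2_mm hY hP r s) (by norm_num)
  have hW : ∀ r s, cert2_L j 8000000 (io (G * p) (-Dr p) r s) :=
    cert2_io (cert2_zero (by norm_num)) hZ (fun _ _ => cert2_neg (hZ _ _))
      fun r s => cert2_neg (cert2_mono (cert2_Dr hP r s) (by norm_num))
  have hU : ∀ r s, cert2_L j 10 (io G (-Dr (1 : M10 cert2_R)) r s) :=
    cert2_io (cert2_zero (by norm_num)) hY (fun _ _ => cert2_neg (hY _ _))
      fun r s => cert2_neg (cert2_Dr h1 r s)
  have hA : ∀ r s, cert2_L j _ (((jm J)ᵀ * (q + qᵀ)) r s) :=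
    cert2_mm (fun r s => hj s r) fun r s => cert2_add (hq r s) (hq s r)
  rcases k with k | k | k | k | k
  · exact cert2_mono (cert2_vm hh hj k) (by norm_num)
  · exact cert2_mono (cert2_mm hA hj _ _) (by norm_num)
  · exact cert2_mono (cert2_sub (cert2_mm hA hU k.1 k.2) (cert2_add
      (cert2_Yr h1 (fun _ _ => cert2_neg (h1 _ _)) k.1 k.2)
      (cert2_mm (A := Jᵀ) (fun r s => hJ s r) (cert2_Xr h1) k.1 k.2))) (by norm_num)
  · exact cert2_mono (cert2_vm hh hW (hx k)) (by norm_num)
  · exact cert2_mono (cert2_sub (cert2_mm (A := (Xr p)ᵀ) (fun r s => cert2_Xr hP s r) hZ k k)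
      (cert2_mm (cert2_mm (A := (io (G * p) (-Dr p))ᵀ) (fun r s => hW s r) hq) hW k k))
      (by norm_num)

theorem c3_N (k : Eq3) (j : ℕ) : |(F3 c3_X k).snd j| ≤ 2 ^ 80 := by
  have h := c3_bd j (x := c3_X) (fun i => by
    have h1 := c3_x i
    have h2 : 0 ≤ c3_w i j := Int.emod_nonneg _ (by norm_num)
    have h3 : c3_w i j < 8 := Int.emod_lt_of_pos _ (by norm_num)
    simp only [cert2_L, c3_X, TrivSqZeroExt.fst_add, TrivSqZeroExt.snd_add,
      TrivSqZeroExt.fst_inl, TrivSqZeroExt.fst_inr, TrivSqZeroExt.snd_inl, TrivSqZeroExt.snd_inr,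
      add_zero, zero_add, abs_of_nonneg h2]
    omega) k
  exact le_trans (le_add_of_nonneg_left (abs_nonneg _)) h

theorem c3_mod (k k' : Eq3) : (F3 c3_X k).snd (c3_ix k') % 5 = if k = k' then 1 else 0 := by
  have e : c3_E k = ∑ j ∈ Finset.range 70,
      (2 ^ 84 : ℤ) ^ j * ((F3 c3_X k).snd j + 5 * 2 ^ 80) := by
    have h := c3_lin (fun j => (2 ^ 84 : ℤ) ^ j) k
    simp only [Int.cast_id] at h
    rw [c3_E, show c3_V = fun i => ∑ j ∈ Finset.range 70, (2 ^ 84) ^ j * c3_w i j from
      rfl, h, ← Finset.sum_add_distrib]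
    exact Finset.sum_congr rfl fun j _ => (mul_add _ _ _).symm
  have h := c3_chk k k'
  rw [e, cert2_digit (by norm_num) _ 70 (fun j => (F3 c3_X k).snd j + 5 * 2 ^ 80)
    (fun j => by have := abs_le.1 (c3_N k j); constructor <;> omega) (c3_ix_lt k'),
    Int.add_mul_emod_self_left] at h
  exact h

/-- The derivative of the large system in the auxiliary variables and `s0` has rank sixty. -/
theorem cert3 (r : Eq3 → ℂ) : ∃ v : V3 → ℂ, (∀ s, s ≠ s0 → v (Sum.inl s) = 0) ∧
    ∀ k, (F3 (dn (fun i => (x3Z i : ℂ)) v) k).snd = r k := by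
  obtain ⟨t, ht⟩ := c3_solve (fun k => (F3 c3_X k).snd) c3_ix c3_ix_lt c3_mod r
  refine ⟨fun i => ∑ j ∈ Finset.range 70, t j * (c3_w i j : ℂ), fun s hs => ?_, fun k => ?_⟩
  · refine Finset.sum_eq_zero fun j _ => ?_
    have : c3_w (Sum.inl s) j = 0 := by simp [c3_w, c3_T, mk3, hs]
    rw [this, Int.cast_zero, mul_zero]
  · rw [c3_lin, ht]

end Pool.Agent.GMD16
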