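import Pool.Agent.Work.MP_274aea_ag_D16.D2

set_option autoImplicit false

open MvPolynomial Matrix Pool.Agent.GM16 Pool.Agent.GM34 Pool.Agent.GMDiv TrivSqZeroExt

namespace Pool.Agent.GMD16

abbrev DD := DualNumber ℂ

abbrev zc : ℤ →+* ℂ := Int.castRingHom ℂ

noncomputable def f1 : DD →+* ℂ := (fstHom ℂ ℂ ℂ).toRingHom

theorem f1_dn {ι : Type} (x v : ι → ℂ) : f1 ∘ dn x v = x := by
  funext i
  simp [f1, dn]

theorem dn_eta {ι : Type} (w : ι → DD) : dn (f1 ∘ w) (fun i => (w i).snd) = w := by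
  funext i
  ext <;> simp [f1, dn]

theorem snd_add' {ι : Type} [Fintype ι] (x v v' : ι → ℂ) (p : PR ι) :
    (aeval (dn x (v + v')) p).snd = (aeval (dn x v) p).snd + (aeval (dn x v') p).snd := by
  obtain ⟨L, -, h⟩ := ift_deriv x p
  rw [← h, ← h, ← h, map_add]

def x1Z : Par ⊕ Aux1 → ℤ := Sum.elim (mkP h1Z q1Z) (Sum.elim (fun k => J1Z k.1 k.2) fun _ => 0)

def c1_T : Par ⊕ Aux1 → ℤ := Sum.elim (fun _ => 0) (Sum.elim (fun k =>
  (!![5641, 786432, 2131012; 4, 32, 256; 1537, 0, 50331648] : M3 ℤ) k.1 k.2)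
  fun _ => 50464513)

def c1_w (i : Par ⊕ Aux1) (j : ℕ) : ℤ := c1_T i / 8 ^ j % 8

def c1_ix : Eq1 → ℕ := Sum.elim (fun a => a.val) fun a => 3 + a.val

def c1_X (i : Par ⊕ Aux1) : cert2_R := inl (x1Z i) + inr (c1_w i)

theorem c1_chk : ∀ k k' : Eq1, (F1x c1_X k).snd (c1_ix k') % 5 = if k = k' then 1 else 0 := by
  decide +kernel

theorem cert1' (r : Eq1 → ℂ) : ∃ v : Par ⊕ Aux1 → ℂ, (∀ s, v (Sum.inl s) = 0) ∧
    ∀ k, (F1x (dn (zc ∘ x1Z) v) k).snd = r k := by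
  obtain ⟨t, ht⟩ := c3_solve (fun k => (F1x c1_X k).snd) c1_ix (by decide +kernel) c1_chk r
  refine ⟨fun i => ∑ j ∈ Finset.range 70, t j * (c1_w i j : ℂ), fun s => ?_, fun k => ?_⟩
  · simp [c1_w, c1_T]
  · have e := c3_hom x1Z c1_w t
    change cert2_hom t ∘ c1_X = dn (zc ∘ x1Z) _ at e
    rw [← e, ← map_F1x, ← ht]
    simp only [cert2_hom, RingHom.coe_mk, MonoidHom.coe_mk, OneHom.coe_mk, snd_add, snd_inl,
      snd_inr, zero_add]

theorem small (δ : Par → ℂ) : ∃ z : Par ⊕ Aux1 → DD, z ∘ Sum.inl = dn (zc ∘ mkP h1Z q1Z) δ ∧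
    f1 ∘ z = zc ∘ x1Z ∧ F1x z = 0 := by
  have e : ∀ (x v : Par ⊕ Aux1 → ℂ) k, (aeval (dn x v) (F1x X k : PR _)) = F1x (dn x v) k :=
    fun x v k => by
      have h3 := map_F1x ((aeval (dn x v) : MvPolynomial _ ℂ →ₐ[ℂ] DD) :
        MvPolynomial (Par ⊕ Aux1) ℂ →+* DD) X k
      rw [ev_dn] at h3
      exact h3
  obtain ⟨v, h1, h2⟩ := cert1' fun k => -(F1x (dn (zc ∘ x1Z) (Sum.elim δ 0)) k).snd
  refine ⟨dn (zc ∘ x1Z) (Sum.elim δ 0 + v), funext fun s => ?_, f1_dn _ _, funext fun k => ?_⟩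
  · simp [dn, h1, x1Z]
  · have h0 : ∀ k, F1x x1Z k = 0 := by decide +kernel
    ext
    · change f1 _ = 0
      rw [map_F1x, f1_dn, ← map_F1x, h0, map_zero]
    · rw [← e, snd_add', e, e, h2]
      simp

section Ring

variable {R S : Type*} [CommRing R] [CommRing S]

def pull (g : M5 R) (t : Par → R) : Par → R := mkP (hv t ᵥ* W2 g) ((W2 g)ᵀ * qm t * W2 g)

theorem pull_pull {g g' : M5 R} (h : g * g' = 1) (t : Par → R) : pull g' (pull g t) = t := by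
  rw [pull, pull, hv_mkP, qm_mkP, vecMul_vecMul, ← Matrix.mul_assoc, ← Matrix.mul_assoc,
    ← transpose_mul, Matrix.mul_assoc _ (W2 g), W2_inv h, vecMul_one, transpose_one,
    Matrix.one_mul, Matrix.mul_one, mkP_self]

theorem map_pull (f : R →+* S) (g : M5 R) (t : Par → R) :
    f ∘ pull g t = pull (g.map f) (f ∘ t) := by
  simp only [pull, map_mkP, maps2_vecMul, maps2_mul, maps2_tr, map_W2]
  rfl

def Th3 (z : Par ⊕ Aux1 → R) (N : M3 R) (g : M5 R) : V3 → R :=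
  mk3 (mkP (legH (bJ z) N (hv (z ∘ Sum.inl)) (zq z)) (legQ (bJ z) N (zq z))) g (-(bJ z)ᵀ) 0 0
    (Gm (-(bJ z)ᵀ) (zL z) (legQ (bJ z) N (zq z)))

theorem map_Th3 (f : R →+* S) (z : Par ⊕ Aux1 → R) (N : M3 R) (g : M5 R) :
    f ∘ Th3 z N g = Th3 (f ∘ z) (N.map f) (g.map f) := by
  have h1 : (-(bJ z)ᵀ).map f = -(bJ (f ∘ z))ᵀ := by
    ext i j
    simp [bJ]
  have h2 : f ∘ (0 : Fin 4 → R) = 0 := funext fun _ => map_zero f
  rw [Th3, map_mk3, map_mkP, map_legH, map_Gm, map_legQ, map_zq, map_zL, h1, h2, map_zero, map_bJ,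
    map_hv]
  rfl

theorem Th3_h (z : Par ⊕ Aux1 → R) (N : M3 R) (g : M5 R) :
    vh (Th3 z N g) = legH (bJ z) N (hv (z ∘ Sum.inl)) (zq z) := by
  change hG 0 (hv (mkP _ _)) = _
  rw [hG_zero, hv_mkP]

theorem Th3_q (z : Par ⊕ Aux1 → R) (N : M3 R) (g : M5 R) :
    vq (Th3 z N g) = legQ (bJ z) N (zq z) := by
  change qG 0 0 (qm (mkP _ _)) = _
  rw [qG_zero, qm_mkP]

theorem scr_lin {h h' : Fin 10 → R} {q q' : M10 R} (H : Scr h q) (H' : Scr h' q') (c : R) :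
    Scr (h + c • h') (q + c • q') :=
  ⟨fun k => by rw [add_dotProduct, smul_dotProduct, H.1, H'.1, smul_zero, add_zero],
    fun k => by rw [bq_add, bq_smul, H.2, H'.2, mul_zero, add_zero]⟩

end Ring

theorem n_q : zq x1Z = q1Z := by
  change qm (mkP h1Z q1Z) + (0 : ℤ) • P0 = _
  rw [qm_mkP, zero_smul, add_zero]

theorem n_L : zL x1Z = L1Z := by
  rw [zL, n_q]
  decide +kernel

theorem n_Th : Th3 x1Z L1Z g0Z = x3Z := by
  have e0 : bJ x1Z = J1Z := rfl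
  have e1 : hv (x1Z ∘ Sum.inl) = h1Z := hv_mkP _ _
  have e2 : Gm J1Z L1Z q1Z =
    !![-1, -1, 1, -2, -1, 1, 0, 1, -1, 0;
    0, 0, 1, 1, 1, -1, 0, -1, 0, 1;
    -1, 1, -1, -1, -1, 1, 0, 1, 0, 0] := by decide +kernel
  have e3 : legH J1Z L1Z h1Z q1Z = h3Z := by
    rw [legH, EE, e2]
    decide +kernel
  have e4 : legQ J1Z L1Z q1Z = q3Z := by
    rw [legQ, EE, e2]
    decide +kernel
  have e5 : -J1Zᵀ = J3Z := by decide +kernel
  have e6 : Gm J3Z L1Z q3Z = G3Z := by decide +kernel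
  rw [Th3, e0, e1, n_q, n_L, e3, e4, e5, e6, x3Z]

theorem n_scr : Scr (hv (pull g0Z (mkP h1Z q1Z))) (qm (pull g0Z (mkP h1Z q1Z))) := by
  rw [pull, hv_mkP, qm_mkP, hv_mkP, qm_mkP, scr_P]
  constructor <;> decide +kernel

theorem n_F3 : ∀ k, F3 x3Z k = 0 := by decide +kernel

theorem n_cnd : cnd x3Z ≠ 0 := by
  have e1 : vq x3Z = q3Z := by
    change qG 0 0 (qm (mkP _ _)) = _
    rw [qG_zero, qm_mkP]
  have e2 : hv (x3Z ∘ Sum.inl) = h3Z := hv_mkP _ _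
  have e3 : qm (x3Z ∘ Sum.inl) = q3Z := qm_mkP _ _
  have e4 : vJ x3Z = J3Z := rfl
  have e5 : vG x3Z = G3Z := rfl
  have e6 : vg x3Z = g0Z := rfl
  have e7 : vl x3Z = 0 := rfl
  have e8 : LL J3Z q3Z = L1Z := by decide +kernel
  have e9 : W2 g0Z *ᵥ pch (fun i => y3Z i) = ![-1, -1, -2, 1, -1, -1, 1, 1, 0, 1] := by decide +kernel
  have e10 : (Sm J3Z ![-1, -1, -2, 1, -1, -1, 1, 1, 0, 1]).det = -1 := by
    rw [det_fin_three]
    decide +kernel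
  have e11 : g0Z * giZ = 1 := by decide +kernel
  have h1 : ∀ v : Fin 3 → ℤ, (jm J3Z *ᵥ v) 0 = 0 := fun v => by
    simp [jm, mulVec, dotProduct]
  rw [cnd, e1, e2, e3, e4, e5, e6, e7, e8]
  simp only [Int.cast_id]
  rw [psi, e9, e10, leg_Gl, one_mulVec, Pi.add_apply, h1, det_fin_three]
  refine mul_ne_zero (mul_ne_zero (mul_ne_zero (by decide +kernel) (by decide +kernel))
    (isUnit_det_of_right_inverse e11).ne_zero) (by decide +kernel)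

end Pool.Agent.GMD16
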