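import Pool.Agent.Work.MP_274aea_ag_D16.D3

set_option autoImplicit false

open MvPolynomial Matrix Pool.Agent.GM16 Pool.Agent.GM34 Pool.Agent.GMDiv TrivSqZeroExt

namespace Pool.Agent.GMD16

section
variable {R : Type*} [CommRing R]

theorem Th3_J (z : Par ⊕ Aux1 → R) (N : M3 R) (g : M5 R) : vJ (Th3 z N g) = -(bJ z)ᵀ := rfl

theorem Th3_g (z : Par ⊕ Aux1 → R) (N : M3 R) (g : M5 R) : vg (Th3 z N g) = g := rfl

theorem Th3_G (z : Par ⊕ Aux1 → R) (N : M3 R) (g : M5 R) :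
    vG (Th3 z N g) = Gm (-(bJ z)ᵀ) (zL z) (legQ (bJ z) N (zq z)) := rfl

theorem lH_Gm (J N : M3 R) (h : Fin 10 → R) (q : M10 R) : lH h (Gm J N q) = legH J N h q := rfl

theorem lQ_Gm (J N : M3 R) (q : M10 R) : lQ q (Gm J N q) = legQ J N q := rfl

end

theorem tan2 (ζ : Par → ℂ) (hζ : Scr (hv ζ) (qm ζ)) :
    ∃ (v : V3 → ℂ) (A : Fin 10 × Fin 10 → ℂ) (c : ℂ),
      (∀ k, (F3 (dn (zc ∘ x3Z) v) k).snd = 0) ∧ ∀ s, (rho (dn (zc ∘ x3Z) v)
        (Matrix.of fun i j => inl 0 + inr (A (i, j))) (inl 0 + inr c) s).snd = ζ s := by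
  have a1 : g0Z * giZ = 1 := by decide +kernel
  obtain ⟨g, hg⟩ : ∃ g : M5 DD, g = g0Z.map (Int.castRingHom DD) := ⟨_, rfl⟩
  obtain ⟨gi, hgi⟩ : ∃ g : M5 DD, g = giZ.map (Int.castRingHom DD) := ⟨_, rfl⟩
  have a2 : gi * g = 1 := by
    rw [hg, hgi, ← maps2_mul, mul_eq_one_comm.1 a1, maps2_one]
  have a3 : g.map f1 = g0Z.map zc := by
    ext i j
    rw [hg]
    exact map_intCast f1 _
  have a4 : gi.map f1 = giZ.map zc := by
    ext i j
    rw [hgi]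
    exact map_intCast f1 _
  obtain ⟨T, hT⟩ : ∃ T, T = dn (zc ∘ pull g0Z (mkP h1Z q1Z)) ζ := ⟨_, rfl⟩
  have b1 : Scr (hv T) (qm T) := by
    have k := scr_lin (map_Scr (inlHom ℂ ℂ) (map_Scr zc n_scr)) (map_Scr (inlHom ℂ ℂ) hζ)
      DualNumber.eps
    convert k using 1
    · funext i
      ext <;> simp [hT, hv, dn]
    · ext i j <;> simp [hT, qm, dn]
  obtain ⟨z, z1, z2, z3⟩ := small fun s => (pull gi T s).snd
  have b2 : f1 ∘ pull gi T = zc ∘ mkP h1Z q1Z := by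
    rw [map_pull, a4, hT, f1_dn, ← map_pull, pull_pull a1]
  rw [← b2, dn_eta] at z1
  have b3 : pull g (z ∘ Sum.inl) = T := by rw [z1, pull_pull a2]
  have hp : HasPlane (bJ z) (hv (z ∘ Sum.inl)) (zq z) := (F1_iff _ _ _).1 z3
  have b4 : (zL z).map f1 = L1Z.map zc := by rw [map_zL, z2, ← map_zL, n_L]
  have a5 : L1Z.map zc * L1Z.map zc = 1 := by
    have : L1Z * L1Z = 1 := by decide +kernel
    rw [← maps2_mul, this, maps2_one]
  have b5 : IsUnit (zL z).det := by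
    rw [isUnit_iff_isUnit_fst]
    change IsUnit (f1 (zL z).det)
    rw [maps2_det, b4]
    exact isUnit_det_of_right_inverse a5
  obtain ⟨N, hN⟩ : ∃ N, zL z * N = 1 := ⟨_, mul_nonsing_inv _ b5⟩
  have b6 : N.map f1 = L1Z.map zc := by
    have k := congrArg (fun M => M.map f1) hN
    simp only [maps2_mul, maps2_one, b4] at k
    exact (left_inv_eq_right_inv a5 k).symm
  have b7 : f1 ∘ Th3 z N g = zc ∘ x3Z := by rw [map_Th3, z2, b6, a3, ← map_Th3, n_Th]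
  obtain ⟨l1, l2⟩ := leg_leg hp hN
  have c1 : legH (-(bJ z)ᵀ) (zL z) (legH (bJ z) N (hv (z ∘ Sum.inl)) (zq z))
      (legQ (bJ z) N (zq z)) ᵥ* W2 g = hv T := by
    rw [← b3, pull, hv_mkP]
    exact congrArg (· ᵥ* W2 g) l1
  obtain ⟨Q, hQ⟩ : ∃ Q, Q = legQ (-(bJ z)ᵀ) (zL z) (legQ (bJ z) N (zq z)) := ⟨_, rfl⟩
  obtain ⟨B, hB⟩ : ∃ B, B = (W2 g)ᵀ * (Q + -bC z • P0) * W2 g := ⟨_, rfl⟩
  have c2 : B + Bᵀ = qm T + (qm T)ᵀ := by
    have k : ∀ M : M10 DD, (W2 g)ᵀ * M * W2 g + ((W2 g)ᵀ * M * W2 g)ᵀ =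
        (W2 g)ᵀ * (M + Mᵀ) * W2 g := fun M => by
      simp only [transpose_mul, transpose_transpose, Matrix.mul_add, Matrix.add_mul,
        Matrix.mul_assoc]
    have l3 : Q + Qᵀ = zq z + (zq z)ᵀ := hQ ▸ l2
    rw [← b3, pull, qm_mkP, hB, k, k, transpose_add, add_add_add_comm, l3, zq, transpose_add,
      transpose_smul, transpose_smul, neg_smul, neg_smul]
    congr 2
    abel
  have c3 : -bC z = inl 0 + inr (-bC z).snd := by
    have : (bC z).fst = 0 := (congrFun z2 (Sum.inr (Sum.inr ()))).trans (map_zero zc)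
    ext <;> simp [this]
  refine ⟨fun i => (Th3 z N g i).snd, fun k => (qm ζ k.1 k.2 - (B k.1 k.2).snd) / 2,
    (-bC z).snd, ?_⟩
  rw [← b7, dn_eta, ← c3]
  refine ⟨fun k => ?_, fun s => ?_⟩
  · have : F3 (Th3 z N g) = 0 := by
      rw [F3, Th3_h, Th3_q, Th3_J, Th3_g, Th3_G]
      refine (F3core_iff (J := -(bJ z)ᵀ) (N := zL z) (g := g)
        (by rw [LL_leg, mul_eq_one_comm.1 hN]) _ _).2 ⟨leg_plane _ _ _ _, rfl, ?_⟩
      rw [c1, ← hQ]
      refine ⟨b1.1, fun k => ?_⟩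
      have k1 := bq_ext g Q 0 (-bC z) (su k) (sv k)
      have k2 := bq_add B Bᵀ (pw (su k) (sv k))
      rw [c2, bq_add, bq_tr, bq_tr, b1.2, add_zero, ← two_smul ℂ, eq_comm, smul_eq_zero] at k2
      rw [← k1, ← hB, transpose_zero, sub_zero, add_zero]
      exact k2.resolve_left two_ne_zero
    rw [this]
    rfl
  · have e : ∀ A : M10 DD, rho (Th3 z N g) A (-bC z) = mkP (hv T) (B + (A - Aᵀ)) := fun A => by
      rw [rho, Th3_h, Th3_q, Th3_g, Th3_G, lH_Gm, lQ_Gm, c1, hB, hQ]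
    rw [e]
    conv_rhs => rw [← mkP_self ζ]
    rcases s with s | s
    · simp [mkP, hT, hv, dn]
    · have k := congrArg snd (congrFun (congrFun c2 (ei s.1)) (ei s.2))
      have k' : ∀ i j, (qm T i j).snd = qm ζ i j := fun i j => by simp [hT, qm, dn]
      simp only [Matrix.add_apply, transpose_apply, snd_add, k'] at k
      simp only [mkP, Sum.elim_inr, Matrix.add_apply, Matrix.sub_apply, transpose_apply, of_apply,
        snd_add, snd_sub, snd_inl, snd_inr, zero_add]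
      linear_combination k / 2

end Pool.Agent.GMD16
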