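import Pool.Agent.Work.MP_274aea_ag_D16.D4
import Pool.Agent.Work.MP_274aea_ag_D16.A4
import Pool.Agent.Work.MP_274aea_ag_D16.B1
import Pool.Agent.Work.MP_274aea_ag_D16.B2
import Pool.Agent.Work.MP_274aea_ag_D16.B3

set_option autoImplicit false

open MvPolynomial Matrix Pool.Agent.GM16 Pool.Agent.GM34 Pool.Agent.GMDiv TrivSqZeroExt

namespace Pool.Agent.GMD16

/-- All variables: the large system, `A`, `c`, a free vector and the point of the second space. -/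
abbrev Io := V3 ⊕ ((Fin 10 × Fin 10) ⊕ Unit) ⊕ Par ⊕ Par

def ia (s : Par) : Io := Sum.inl (Sum.inl s)

def ib (s : Par) : Io := Sum.inr (Sum.inr (Sum.inr s))

def iy (s : Par) : Io := Sum.inr (Sum.inr (Sum.inl s))

def eA {R : Type*} (x : Io → R) : M10 R :=
  Matrix.of fun i j => x (Sum.inr (Sum.inl (Sum.inl (i, j))))

def ec {R : Type*} (x : Io → R) : R := x (Sum.inr (Sum.inl (Sum.inr ())))

/-- The full system. -/
noncomputable def EE5 (K : Par → Par → ℂ) : Eq3 ⊕ Par → PR Io :=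
  Sum.elim (F3 (X ∘ Sum.inl)) fun s =>
    rho (X ∘ Sum.inl) (eA X) (ec X) s + ∑ s', C (K s s') * X (iy s') - X (ib s)

section
variable {S : Type} [CommRing S] [Algebra ℂ S] (K : Par → Par → ℂ) (u : Io → S)

theorem ae_X : ((aeval u : PR Io →ₐ[ℂ] S) : PR Io →+* S) ∘ (X ∘ Sum.inl : V3 → PR Io) =
    u ∘ Sum.inl := funext fun i => aeval_X u (Sum.inl i)

theorem ae_l (k : Eq3) : aeval u (EE5 K (Sum.inl k)) = F3 (u ∘ Sum.inl) k := by
  rw [← ae_X u, ← map_F3]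
  rfl

theorem ae_r (s : Par) : aeval u (EE5 K (Sum.inr s)) = rho (u ∘ Sum.inl) (eA u) (ec u) s +
    ∑ s', K s s' • u (iy s') - u (ib s) := by
  have h := congrFun (map_rho ((aeval u : PR Io →ₐ[ℂ] S) : PR Io →+* S) (X ∘ Sum.inl) (eA X)
    (ec X)) s
  have e1 : (eA (X : Io → PR Io)).map ((aeval u : PR Io →ₐ[ℂ] S) : PR Io →+* S) = eA u := by
    ext i j
    exact aeval_X _ _
  have e2 : ((aeval u : PR Io →ₐ[ℂ] S) : PR Io →+* S) (ec X) = ec u := aeval_X _ _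
  rw [ae_X, e1, e2] at h
  rw [← h, EE5, Sum.elim_inr, map_sub, map_add, map_sum, aeval_X]
  simp only [map_mul, aeval_C, aeval_X, Algebra.smul_def]
  rfl

end

theorem ev_ae {ι : Type} (x : ι → ℂ) (p : PR ι) : eval x p = aeval x p := by
  rw [← coe_aeval_eq_eval]
  rfl

/-- The witness of the full system. -/
noncomputable def x5 : Io → ℂ :=
  Sum.elim (zc ∘ x3Z) (Sum.elim 0 (Sum.elim 0 (rho (zc ∘ x3Z) 0 0)))

theorem surj1 (K : Par → Par → ℂ) : Surj (EE5 K) {i | ∃ s, s ≠ s0 ∧ i = ia s} x5 := by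
  intro r
  obtain ⟨v, h1, h2⟩ := cert3 fun k => r (Sum.inl k)
  refine ⟨Sum.elim v (Sum.elim 0 (Sum.elim 0 fun s => (rho (dn (zc ∘ x3Z) v)
    (Matrix.of fun _ _ => inl 0 + inr 0) (inl 0 + inr 0) s).snd - r (Sum.inr s))), ?_, ?_⟩
  · rintro _ ⟨s, hs, rfl⟩
    exact h1 s hs
  · rintro (k | s)
    · rw [ae_l]
      exact h2 k
    · rw [ae_r, snd_sub, snd_add, snd_sum]
      have e : ∀ a b : ℂ, a + 0 - (0 + (a - b)) = b := fun a b => by ring
      refine Eq.trans ?_ (e (rho (dn (zc ∘ x3Z) v)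
        (Matrix.of fun _ _ => inl 0 + inr 0) (inl 0 + inr 0) s).snd _)
      refine congrArg₂ (· - ·) (congrArg₂ (· + ·) rfl ?_) ?_
      · simp [dn, iy]
      · rw [dn, snd_add, snd_inl, snd_inr]
        rfl

theorem surj2 {pr : (Par → ℂ) →ₗ[ℂ] Par → ℂ} (hp : ∀ y, ContainsScroll (pr y))
    {K : Par → Par → ℂ} (hK : ∀ (y : Par → ℂ) s, ∑ s', K s s' * y s' = y s - pr y s) :
    Surj (EE5 K) (Set.range ib) x5 := by
  intro r
  obtain ⟨v1, -, h1⟩ := surj1 K r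
  obtain ⟨η, hη⟩ : ∃ η : Par → ℂ, η = fun s => -v1 (ib s) := ⟨_, rfl⟩
  obtain ⟨v, A, c, h2, h3⟩ := tan2 (pr η) ((scr_iff _).1 (hp η))
  refine ⟨v1 + Sum.elim v (Sum.elim (Sum.elim A fun _ => c) (Sum.elim η η)), ?_, fun k => ?_⟩
  · rintro _ ⟨s, rfl⟩
    change v1 (ib s) + η s = 0
    rw [hη, add_neg_cancel]
  · rw [snd_add', h1, add_eq_left]
    rcases k with k | s
    · rw [ae_l]
      exact h2 k
    · rw [ae_r, snd_sub, snd_add, snd_sum]
      have e : pr η s + (η s - pr η s) - (0 + η s) = 0 := by ring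
      refine Eq.trans ?_ e
      refine congrArg₂ (· - ·) (congrArg₂ (· + ·) (h3 s) ?_) ?_
      · rw [← hK]
        simp [dn, iy]
      · rw [dn, snd_add, snd_inl, snd_inr]
        rfl

theorem step3 {x : V3 → ℂ} {A : M10 ℂ} {c : ℂ} (h0 : F3 x = 0) (hc : cnd x ≠ 0) :
    ContainsScroll (rho x A c) ∧ (IsSmoothGM (rho x A c) → Chart (rho x A c) →
      IsSmoothGM (x ∘ Sum.inl) ∧ RationalChart (x ∘ Sum.inl) ∧
        Partner (rho x A c) (x ∘ Sum.inl)) := by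
  have c1 := left_ne_zero_of_mul (left_ne_zero_of_mul (left_ne_zero_of_mul hc))
  have c2 := right_ne_zero_of_mul (left_ne_zero_of_mul (left_ne_zero_of_mul hc))
  have c3 := right_ne_zero_of_mul (left_ne_zero_of_mul hc)
  have c4 := right_ne_zero_of_mul hc
  obtain ⟨N, hN⟩ : ∃ N, LL (vJ x) (vq x) * N = 1 := ⟨_, mul_nonsing_inv _ (Ne.isUnit c1)⟩
  obtain ⟨hp, hG', hs⟩ := (F3core_iff hN _ _ _).1 h0
  have e1 : hv (rho x A c) = legH (vJ x) N (vh x) (vq x) ᵥ* W2 (vg x) := by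
    rw [rho, hv_mkP, hG', lH_Gm]
  have e2 : qm (rho x A c) =
      (W2 (vg x))ᵀ * (legQ (vJ x) N (vq x) + c • GM34.P0) * W2 (vg x) + (A - Aᵀ) := by
    rw [rho, qm_mkP, hG', lQ_Gm]
  have k : ContainsScroll (rho x A c) := by
    rw [scr_iff, e1, e2]
    exact ⟨hs.1, fun k => (bq_ext (vg x) _ A c (su k) (sv k)).trans (hs.2 k)⟩
  refine ⟨k, fun k1 k2 => ?_⟩
  have hP : PartnerN (hv (rho x A c)) (qm (rho x A c)) (hv (x ∘ Sum.inl)) (qm (x ∘ Sum.inl)) := by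
    rw [e1, e2]
    exact partner_trans (partner_W c3 _ _ _) (partner_trans (partner_P0 _ _ _)
      (partner_trans (partner_leg hp hN) (partner_G _ _ _ _)))
  have k3 := k 1 1 0 (-1) 1
  have e3 : pw ![0, (1 : ℂ) ^ 2, 0, 1 * 1, 1 ^ 2] ![1 * -1 - 1 * 0, 1 * 0, 1, 1 * 0, 1 * -1] =
      pch fun i => (y3Z i : ℂ) := by
    funext i
    fin_cases i <;> simp [pw, pch, y3Z]
  rw [Hf_eq, Qf_eq, pl_ee, e3] at k3
  rw [hG'] at c4
  exact ⟨(smooth_iff _).2 (nodec_smooth (kap1_ne c2)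
      (partner_nodec hP (smooth_nodec ((smooth_iff _).1 k1)))),
    chart_of (rat3 hp hN c2 c3 e1 e2 k3.1 k3.2 c4 (rat_of_chart k2)), partner_of hP⟩

theorem main : ∃ F : MvPolynomial Par ℂ, (F = 0 ∨ Irreducible F) ∧ ∀ f, ¬ F ∣ f →
    ∃ F1 F2 g : MvPolynomial Par ℂ,
      (∃ t', eval t' F1 = 0 ∧ eval t' F2 = 0 ∧ eval t' (f * g) ≠ 0) ∧
      ∀ t', eval t' F1 = 0 → eval t' F2 = 0 → eval t' g ≠ 0 → eval t' F = 0 ∧
        IsSmoothGM t' ∧ RationalChart t' ∧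
          ∃ t, ContainsScroll t ∧ IsSmoothGM t ∧ Partner t t' := by
  classical
  obtain ⟨pr, p1, p2, p3⟩ := fam
  obtain ⟨K, hK⟩ : ∃ K : Par → Par → ℂ, ∀ (y : Par → ℂ) s, ∑ s', K s s' * y s' = y s - pr y s :=
    ⟨fun s s' => (LinearMap.id - pr : (Par → ℂ) →ₗ[ℂ] Par → ℂ)
      (fun j => if s' = j then 1 else 0) s, fun y s => by
      have k := congrFun ((LinearMap.id - pr : (Par → ℂ) →ₗ[ℂ] Par → ℂ).pi_apply_eq_sum_univ y) s
      rw [Finset.sum_apply] at k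
      refine Eq.trans (Finset.sum_congr rfl fun _ _ => mul_comm _ _) k.symm⟩
  have ec' : ∀ x : Io → ℂ, eval x (cnd (X ∘ Sum.inl : V3 → PR Io)) = cnd (x ∘ Sum.inl) :=
    fun x => by
      rw [map_cnd]
      exact congrArg cnd (funext fun _ => eval_X _)
  have : Nonempty Par := ⟨s0⟩
  obtain ⟨F, h1, h2⟩ := transfer (EE5 K) (a := ia) (b := ib)
    (fun _ _ h => Sum.inl.inj (Sum.inl.inj h))
    (fun _ _ h => Sum.inr.inj (Sum.inr.inj (Sum.inr.inj h))) (s0 := s0) (s2 := Sum.inl (ee 0))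
    Sum.inl_ne_inr (cnd (X ∘ Sum.inl)) x5 (by
      rintro (k | s)
      · rw [ev_ae, ae_l]
        change F3 (zc ∘ x3Z) k = 0
        rw [← map_F3, n_F3, map_zero]
      · have e0 : ∀ s', x5 (iy s') = 0 := fun _ => rfl
        have e1 : eA x5 = 0 := rfl
        have e2 : ec x5 = 0 := rfl
        have e3 : x5 ∘ Sum.inl = zc ∘ x3Z := rfl
        have e4 : x5 (ib s) = rho (zc ∘ x3Z) 0 0 s := rfl
        rw [ev_ae, ae_r, e1, e2, e3, e4]
        simp only [e0, smul_zero, Finset.sum_const_zero, add_zero, sub_self]) (by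
      rw [ec']
      change cnd (zc ∘ x3Z) ≠ 0
      rw [← map_cnd, eq_intCast, Int.cast_ne_zero]
      exact n_cnd) (surj1 K) (surj2 p1 hK) _ p3
  refine ⟨F, h1, fun f hf => ?_⟩
  obtain ⟨F1, F2, g, k1, k2⟩ := h2 f hf
  refine ⟨F1, F2, g, k1, fun t' a1 a2 a3 => ?_⟩
  obtain ⟨b1, x, b2, b3, rfl, b4⟩ := k2 t' a1 a2 a3
  rw [ec'] at b3
  obtain ⟨d1, d2⟩ := step3 (A := eA x) (c := ec x) (funext fun k => by
    have := b2 (Sum.inl k)
    rwa [ev_ae, ae_l] at this) b3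
  have e : pr (x ∘ ib) = rho (x ∘ Sum.inl) (eA x) (ec x) := by
    have k : x ∘ ib = rho (x ∘ Sum.inl) (eA x) (ec x) + (x ∘ iy - pr (x ∘ iy)) := by
      funext s
      have := b2 (Sum.inr s)
      rw [ev_ae, ae_r, sub_eq_zero] at this
      rw [Pi.add_apply, Pi.sub_apply, ← hK]
      exact this.symm
    rw [k, map_add, map_sub, p2 _ d1, p2 _ (p1 _), sub_self, add_zero]
  rw [e] at b4
  obtain ⟨d3, d4, d5⟩ := d2 b4.1 b4.2
  exact ⟨b1, d3, d4, _, d1, b4.1, d5⟩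

end Pool.Agent.GMD16
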